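import Mathlib

/-!
One-way public-coin tests and adaptive Merlin–Arthur query trees.
-/

namespace Pool.Agent.P.MP_a54059_lc.MA

/-- `P x y` is within `1/100` of the acceptance probability of a public-coin protocol in which
the holder of `x` sends one `k`-bit message and the holder of `y` accepts or rejects. -/
def OW {X Y : Type} (k : ℕ) (P : X → Y → ℝ) : Prop :=
  ∃ (m : ℕ) (a : Fin (m + 1) → X → Fin (2 ^ k)) (acc : Fin (m + 1) → Fin (2 ^ k) → Y → Bool),
    ∀ x y, |P x y - ((Finset.univ.filter fun ω => acc ω (a ω x) y = true).card : ℝ) / (m + 1)|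
      ≤ 1 / 100

/-- On the inputs in `D`, the predicate `f` is decided by `d` adaptive Merlin–Arthur queries
with `k`-bit witnesses, whose verifiers are `k`-bit one-way tests in both directions. -/
def Dec {X Y : Type} (k : ℕ) (f : X → Y → Prop) : ℕ → (X → Y → Prop) → Prop
  | 0, D => (∀ x y, D x y → f x y) ∨ (∀ x y, D x y → ¬ f x y)
  | d + 1, D => ∃ P : Fin (2 ^ k) → X → Y → ℝ,
      (∀ w, OW k (P w) ∧ OW k (fun y x => P w x y)) ∧
      (∀ x y, D x y → (∃ w, 2 / 3 ≤ P w x y) ∨ ∀ w, P w x y ≤ 1 / 3) ∧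
      Dec k f d (fun x y => D x y ∧ ∃ w, 2 / 3 ≤ P w x y) ∧
      Dec k f d (fun x y => D x y ∧ ∀ w, P w x y ≤ 1 / 3)

end Pool.Agent.P.MP_a54059_lc.MA
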