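import Pool.Agent.P.MP_a54059_lc.MA.Lists
import Pool.Agent.P.MP_a54059_lc.EQ.Maj

/-!
From query trees to decision lists, and the finite lower bound for Majority of XORs.
-/

namespace Pool.Agent.P.MP_a54059_lc.MA

open Finset Pool.Agent.P.MP_a54059_lc.EQ

theorem to_list {X Y : Type} (k : ℕ) (f : X → Y → Prop) (d : ℕ) : ∀ D, Dec k f d D →
    ∃ (e : ℕ → ℕ → X → Y → ℝ) (lab : ℕ → Prop),
      (∀ j i, OW k (e j i) ∧ OW k (fun y x => e j i x y)) ∧
      ∀ x y, D x y → (∃ j < (2 ^ k + 1) ^ d, Lev (2 / 3) d e j x y) ∧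
        ∀ J < (2 ^ k + 1) ^ d, Ye d e J x y → (∀ j < J, ¬ Lev (2 / 3) d e j x y) →
          (lab J ↔ f x y) := by
  classical
  induction d with
  | zero =>
    intro D h
    have hl : ∀ (e : ℕ → ℕ → X → Y → ℝ) x y, ∃ j < (2 ^ k + 1) ^ 0, Lev (2 / 3) 0 e j x y :=
      fun e x y => ⟨0, by simp, fun i hi => absurd hi (Nat.not_lt_zero i)⟩
    rcases h with h | h
    · exact ⟨fun _ _ _ _ => 1, fun _ => True, fun _ _ => ⟨ow_one k, ow_one k⟩,
        fun x y hD => ⟨hl _ x y, fun _ _ _ _ => by simp [h x y hD]⟩⟩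
    · exact ⟨fun _ _ _ _ => 1, fun _ => False, fun _ _ => ⟨ow_one k, ow_one k⟩,
        fun x y hD => ⟨hl _ x y, fun _ _ _ _ => by simp [h x y hD]⟩⟩
  | succ d ih =>
    rintro D ⟨P, p1, p2, p3, p4⟩
    obtain ⟨el, ll, l1, l2⟩ := ih _ p3
    obtain ⟨er, lr, r1, r2⟩ := ih _ p4
    obtain ⟨K, hK⟩ : ∃ K, K = (2 ^ k + 1) ^ d := ⟨_, rfl⟩
    have M0 : 0 < 2 ^ k := Nat.two_pow_pos k
    have hs : (2 ^ k + 1) ^ (d + 1) = 2 ^ k * K + K := by rw [pow_succ, ← hK]; ring
    rw [← hK] at l2 r2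
    rw [hs]
    set e : ℕ → ℕ → X → Y → ℝ := fun j i => if j < 2 ^ k * K then
      (if i = d then P ⟨j % 2 ^ k, Nat.mod_lt _ M0⟩ else el (j / 2 ^ k) i)
      else (if i = d then fun _ _ => 1 else er (j - 2 ^ k * K) i) with he
    have hl : ∀ x y jl (w : Fin (2 ^ k)), jl < K → 2 / 3 ≤ P w x y → Lev (2 / 3) d el jl x y →
        2 ^ k * jl + w < 2 ^ k * K ∧ Lev (2 / 3) (d + 1) e (2 ^ k * jl + w) x y := by
      intro x y jl w a1 a2 a3
      have b1 : 2 ^ k * jl + w < 2 ^ k * K := by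
        calc _ < 2 ^ k * (jl + 1) := by rw [mul_add, mul_one]; omega
          _ ≤ _ := Nat.mul_le_mul_left _ a1
      have b2 : (2 ^ k * jl + w) / 2 ^ k = jl := by
        rw [Nat.mul_add_div M0, Nat.div_eq_of_lt w.2, add_zero]
      have b3 : (2 ^ k * jl + w) % 2 ^ k = w := by
        rw [Nat.mul_add_mod, Nat.mod_eq_of_lt w.2]
      refine ⟨b1, fun i hi => ?_⟩
      simp only [he, b1, if_true, b2, b3]
      split_ifs with h
      · exact a2
      · exact a3 i (by omega)
    have hr : ∀ x y jr, Lev (2 / 3) d er jr x y → Lev (2 / 3) (d + 1) e (2 ^ k * K + jr) x y := by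
      intro x y jr a1 i hi
      have b1 : ¬ 2 ^ k * K + jr < 2 ^ k * K := by omega
      simp only [he, b1, if_false, Nat.add_sub_cancel_left]
      split_ifs with h
      · norm_num
      · exact a1 i (by omega)
    refine ⟨e, fun j => if j < 2 ^ k * K then ll (j / 2 ^ k) else lr (j - 2 ^ k * K), ?_, ?_⟩
    · intro j i
      simp only [he]
      split_ifs
      · exact p1 _
      · exact l1 _ _
      · exact ⟨ow_one k, ow_one k⟩
      · exact r1 _ _
    · intro x y hD
      rcases p2 x y hD with ⟨w, hw⟩ | hw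
      · obtain ⟨⟨jl, a1, a2⟩, a3⟩ := l2 x y ⟨hD, w, hw⟩
        obtain ⟨a4, a5⟩ := hl x y jl w a1 hw a2
        refine ⟨⟨_, by omega, a5⟩, fun J _ b2 b3 => ?_⟩
        have b4 : J < 2 ^ k * K := by
          by_contra h
          exact b3 _ (by omega) a5
        simp only [b4, if_true]
        refine a3 _ (Nat.div_lt_of_lt_mul b4) (fun i hi => ?_) (fun j hj hh => ?_)
        · have := b2 i (by omega)
          simp only [he, b4, if_true, if_neg hi.ne] at this
          exact this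
        · refine b3 _ ?_ (hl x y j w (hj.trans (Nat.div_lt_of_lt_mul b4)) hw hh).2
          calc _ < 2 ^ k * (j + 1) := by rw [mul_add, mul_one]; omega
            _ ≤ 2 ^ k * (J / 2 ^ k) := Nat.mul_le_mul_left _ hj
            _ ≤ J := Nat.mul_div_le _ _
      · obtain ⟨⟨jr, a1, a2⟩, a3⟩ := r2 x y ⟨hD, hw⟩
        refine ⟨⟨_, by omega, hr x y jr a2⟩, fun J b1 b2 b3 => ?_⟩
        have b4 : ¬ J < 2 ^ k * K := by
          intro h
          have := b2 d (by omega)
          simp only [he, h, if_true] at this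
          exact absurd (hw _) (not_le.2 this)
        simp only [b4, if_false]
        refine a3 _ (by omega) (fun i hi => ?_) (fun j hj hh => b3 _ (by omega) (hr x y j hh))
        have := b2 i (by omega)
        simp only [he, b4, if_false, if_neg hi.ne] at this
        exact this

theorem finite_bound {n k d : ℕ}
    (hT : Dec k (fun x y : Fin n → Bool => n < 2 * hammingDist x y) d (fun _ _ => True))
    (p0 : ℕ) (hp : 1 ≤ p0) (he : 2 * n + 1 ≤ 2 ^ p0) (hK : d * (k + 1) ≤ p0)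
    (hn : 640 * (2 * (60000000000000 * (40000 * p0) ^ 19)) ^ 3 ≤ n) : False := by
  classical
  obtain ⟨e, lab, t1, t2⟩ := to_list k _ d _ hT
  obtain ⟨K, hK0⟩ : ∃ K, K = (2 ^ k + 1) ^ d := ⟨_, rfl⟩
  rw [← hK0] at t2
  have K1 : K ≤ 2 ^ p0 := by
    have a1 : 2 ^ k + 1 ≤ 2 ^ (k + 1) := by
      have := Nat.two_pow_pos k
      rw [pow_succ]
      omega
    calc K ≤ (2 ^ (k + 1)) ^ d := hK0 ▸ Nat.pow_le_pow_left a1 d
      _ ≤ _ := by
          rw [← pow_mul]
          exact Nat.pow_le_pow_right (by norm_num) (by rw [mul_comm]; exact hK)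
  have d1 : d ≤ p0 := (Nat.le_mul_of_pos_right d (Nat.succ_pos k)).trans hK
  have d2 : k * d ≤ p0 := le_trans (by rw [mul_comm]; exact Nat.mul_le_mul_left _ (by omega)) hK
  have d3 : 2 * (d : ℝ) ≤ 2 ^ p0 := by
    have a1 : 2 * p0 ≤ 2 ^ p0 := by
      obtain ⟨r, rfl⟩ : ∃ r, p0 = r + 1 := ⟨p0 - 1, by omega⟩
      have : r < 2 ^ r := Nat.lt_two_pow_self
      rw [pow_succ]
      omega
    have a2 : 2 * d ≤ 2 ^ p0 := by omega
    exact_mod_cast a2
  have κ1 : 2 * (18000 * k * d) + 1 ≤ 40000 * p0 := by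
    rw [mul_assoc 18000]
    omega
  have hA : ∀ j < K, ∀ t, 1 ≤ t → Sk (18000 * k * d * t) (2 ^ p0 / 2 ^ t) d (e j) :=
    fun j _ t ht => sk_mono (sk_all t ht d fun i _ => (t1 j i).1) le_rfl (by gcongr)
  have hB : ∀ j < K, ∀ t, 1 ≤ t →
      Sk (18000 * k * d * t) (2 ^ p0 / 2 ^ t) d (fun i y x => e j i x y) :=
    fun j _ t ht => sk_mono (sk_all (e := fun i y x => e j i x y) t ht d fun i _ => (t1 j i).2)
      le_rfl (by gcongr)
  obtain ⟨p, hp0⟩ : ∃ p, p = 40000 * p0 := ⟨_, rfl⟩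
  rw [← hp0] at hn κ1
  have K2 : K ≤ 2 ^ p := K1.trans (Nat.pow_le_pow_right (by norm_num) (by omega))
  obtain ⟨A, B, J, hA0, hB0, sA, sB, hJ, inJ, sm⟩ := structure_thm p K (by omega) K2
    (Lev (2 / 3) d e) (Lev (1 / 2) d e) (Ye d e)
    (hc_of (u := 2 * n + 1) κ1 (by omega) K1 he (by
      simp only [Fintype.card_fun, Fintype.card_bool, Fintype.card_fin]
      rw [← pow_add]
      exact Nat.pow_lt_pow_right (by norm_num) (by omega)) hA hB)
    (hj_of κ1 (by omega) hA) (fun j x y h i hi => le_trans (by norm_num) (h i hi))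
  obtain ⟨h, hh⟩ : ∃ h, h = 60000000000000 * p ^ 19 := ⟨_, rfl⟩
  rw [← hh] at sA sB hn
  have hh1 : 1 ≤ 2 * h := Nat.pos_of_ne_zero (by rw [hh, hp0]; positivity)
  have hAp : (0 : ℝ) < A.card := by exact_mod_cast hA0.card_pos
  have hBp : (0 : ℝ) < B.card := by exact_mod_cast hB0.card_pos
  have hs' : (4 : ℝ) ^ n ≤ 2 ^ (2 * h) * (A.card * B.card) := by
    have a1 := Nat.mul_le_mul sA sB
    simp only [Fintype.card_fun, Fintype.card_bool, Fintype.card_fin] at a1
    have a2 : 4 ^ n ≤ 2 ^ (2 * h) * (A.card * B.card) := by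
      calc 4 ^ n = 2 ^ n * 2 ^ n := by rw [← mul_pow]; norm_num
        _ ≤ _ := a1
        _ = _ := by ring
    exact_mod_cast a2
  set f : (Fin n → Bool) → (Fin n → Bool) → ℝ := fun x y =>
    (∑ j ∈ range J, if Lev (2 / 3) d e j x y then 1 else 0) +
      if J < K ∧ ¬ Ye d e J x y then 1 else 0 with hf
  have f0 : ∀ x y j, (0 : ℝ) ≤ if Lev (2 / 3) d e j x y then 1 else 0 := by
    intro x y i
    split_ifs <;> norm_num
  have f1 : ∀ x y, (0 : ℝ) ≤ if J < K ∧ ¬ Ye d e J x y then 1 else 0 := by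
    intro x y
    split_ifs <;> norm_num
  have key := both_signs hh1 hn A B hA0 hB0 hs' (if lab J then 1 else -1)
    (by by_cases h : lab J <;> simp [h]) f
    (fun x y => add_nonneg (sum_nonneg fun i _ => f0 x y i) (f1 x y)) (by
      intro x hx y hy hp
      by_contra hcon
      have hi : ∀ j < J, ¬ Lev (2 / 3) d e j x y := by
        intro j hj hxy
        have a1 := single_le_sum (fun i _ => f0 x y i) (mem_range.2 hj)
        rw [if_pos hxy] at a1
        have a2 := f1 x y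
        exact hcon (by simp only [hf]; linarith)
      obtain ⟨⟨j, a1, a2⟩, a3⟩ := t2 x y trivial
      have a4 : J < K := by
        by_contra h
        exact hi j (by omega) a2
      have a5 : Ye d e J x y := by
        by_contra h
        have b1 := sum_nonneg (s := range J) fun i _ => f0 x y i
        exact hcon (by simp only [hf, a4, h, not_false_eq_true, and_self, if_true]; linarith)
      have hq := a3 J a4 a5 hi
      rw [ip_eq] at hp
      by_cases hl : lab J
      · have b1 : (n : ℝ) < 2 * hammingDist x y := by exact_mod_cast hq.1 hl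
        simp only [hl, if_true] at hp
        linarith
      · have b0 : ¬ n < 2 * hammingDist x y := fun h => hl (hq.2 h)
        have b1 : (2 * hammingDist x y : ℝ) ≤ n := by exact_mod_cast not_lt.1 b0
        simp only [hl, if_false] at hp
        linarith)
  have row : ∀ x ∈ A, 2 ^ p * ∑ y ∈ B, f x y ≤ 2 * B.card := by
    intro x hx
    have a1 : ∀ j ∈ range J, (2 : ℝ) ^ (2 * p) *
        ∑ y ∈ B, (if Lev (2 / 3) d e j x y then (1 : ℝ) else 0) ≤ B.card := by
      intro j hj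
      have b1 := sm x hx j (mem_range.1 hj)
      rw [sum_boole]
      exact_mod_cast b1
    have a2 := sum_le_sum a1
    rw [← mul_sum, sum_comm, sum_const, card_range, nsmul_eq_mul] at a2
    have a3 : (J : ℝ) ≤ 2 ^ p := by exact_mod_cast hJ.trans K2
    have a4 := mul_le_mul_of_nonneg_right a3 hBp.le
    have a5 : (2 : ℝ) ^ p * ∑ y ∈ B, ∑ j ∈ range J,
        (if Lev (2 / 3) d e j x y then (1 : ℝ) else 0) ≤ B.card := by
      apply le_of_mul_le_mul_left _ (show (0 : ℝ) < 2 ^ p by positivity)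
      rw [two_mul, pow_add, mul_assoc] at a2
      exact a2.trans a4
    have a6 : (2 : ℝ) ^ p * ∑ y ∈ B, (if J < K ∧ ¬ Ye d e J x y then (1 : ℝ) else 0) ≤
        B.card := by
      by_cases hj : J < K
      · have b1 := inJ hj x hx
        simp only [hj, true_and, sum_boole]
        exact_mod_cast b1
      · simp [hj]
    simp only [hf]
    rw [sum_add_distrib, mul_add]
    linarith
  have a1 := sum_le_sum row
  rw [← mul_sum, sum_const, nsmul_eq_mul] at a1
  have a2 : 2 * (n : ℝ) < 2 ^ p := by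
    have : 2 * n < 2 ^ p := lt_of_lt_of_le he (Nat.pow_le_pow_right (by norm_num) (by omega))
    exact_mod_cast this
  have a3 : 0 < ∑ x ∈ A, ∑ y ∈ B, f x y := by
    by_contra hc
    have := mul_nonpos_of_nonneg_of_nonpos (Nat.cast_nonneg (α := ℝ) n) (not_lt.1 hc)
    have := mul_pos hAp hBp
    linarith
  have a4 := mul_lt_mul_of_pos_right a2 a3
  linarith

theorem pow_lt (p : ℕ) (hp : 1024 ≤ p) : p ^ 59 < 2 ^ p := by
  have a1 : ∀ q, 10 ≤ q → 64 * (q + 1) ≤ 2 ^ q := by
    intro q hq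
    induction q, hq using Nat.le_induction with
    | base => norm_num
    | succ m _ ih => rw [pow_succ]; omega
  have a2 := a1 (p / 64) (by omega)
  calc p ^ 59 < (2 ^ (p / 64)) ^ 59 := Nat.pow_lt_pow_left (by omega) (by norm_num)
    _ ≤ _ := by
        rw [← pow_mul]
        exact Nat.pow_le_pow_right (by norm_num) (by omega)

theorem choose_p (c n : ℕ) (hn : (c * 2 ^ 57 + 1024) ^ 58 ≤ n) : ∃ p : ℕ, 1 ≤ p ∧
    2 * n + 1 ≤ 2 ^ p ∧ c * p ^ 57 ≤ n ∧ (n : ℝ) ^ ((1 : ℝ) / 58) ≤ p := by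
  have ex : ∃ p, n ≤ p ^ 58 := ⟨n, Nat.le_self_pow (by norm_num) n⟩
  have a1 : n ≤ Nat.find ex ^ 58 := Nat.find_spec ex
  have a2 : c * 2 ^ 57 + 1024 ≤ Nat.find ex :=
    (Nat.pow_le_pow_iff_left (by norm_num)).1 (hn.trans a1)
  have a3 := Nat.find_min ex (show Nat.find ex - 1 < Nat.find ex by omega)
  generalize Nat.find ex = p at a1 a2 a3
  refine ⟨p, by omega, ?_, ?_, ?_⟩
  · have b1 := pow_lt p (by omega)
    have b2 : 2 * p ^ 58 ≤ p ^ 59 := by
      rw [pow_succ' p 58]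
      exact Nat.mul_le_mul_right _ (by omega)
    omega
  · obtain ⟨q, rfl⟩ : ∃ q, p = q + 1 := ⟨p - 1, by omega⟩
    rw [Nat.add_sub_cancel] at a3
    refine le_trans ?_ (not_le.1 a3).le
    calc _ ≤ c * (2 * q) ^ 57 := by gcongr; omega
      _ = (c * 2 ^ 57) * q ^ 57 := by rw [mul_pow, mul_assoc]
      _ ≤ q * q ^ 57 := Nat.mul_le_mul_right _ (by
          generalize c * 2 ^ 57 = c' at a2
          omega)
      _ = _ := by ring
  · have b1 : (n : ℝ) ≤ (p : ℝ) ^ 58 := by exact_mod_cast a1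
    calc _ ≤ ((p : ℝ) ^ 58) ^ ((1 : ℝ) / 58) :=
          Real.rpow_le_rpow (Nat.cast_nonneg _) b1 (by norm_num)
      _ = _ := by
          rw [one_div]
          exact_mod_cast Real.pow_rpow_inv_natCast (Nat.cast_nonneg p) (show 58 ≠ 0 by norm_num)

end Pool.Agent.P.MP_a54059_lc.MA
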