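import Pool.Agent.P.MP_a54059_lc.EX.Param

/-!
Arithmetic of the parameters.
-/

namespace Pool.Agent.P.MP_a54059_lc.MA

open Pool.Agent.P.MP_a54059_lc.EX

theorem par_tau (p K : ℕ) (hp : 1 ≤ p) (hK : K ≤ 2 ^ p) :
    8 * (K : ℝ) * ((4 + 16 * (2 ^ (5 * p ^ 2) * (12000000000 * (p : ℝ) ^ 12)) *
      ((2500 * p ^ 5 : ℕ) : ℝ)) / 2 ^ (100 * p ^ 2)) ≤ 1 := by
  have a1 := poly_le p (2 ^ 52) 52 17 hp le_rfl
  have a2 : 1 ≤ 2 ^ (5 * p ^ 2) * p ^ 17 := Nat.mul_pos (Nat.two_pow_pos _) (pow_pos hp _)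
  have q1 : p ≤ p ^ 2 := Nat.le_self_pow (by norm_num) p
  have a3 : 8 * K * (4 + 16 * (2 ^ (5 * p ^ 2) * (12000000000 * p ^ 12)) * (2500 * p ^ 5))
      ≤ 2 ^ (100 * p ^ 2) := by
    calc _ ≤ 8 * 2 ^ p * (4 * (2 ^ (5 * p ^ 2) * p ^ 17) +
            16 * (2 ^ (5 * p ^ 2) * (12000000000 * p ^ 12)) * (2500 * p ^ 5)) := by
          gcongr
          omega
      _ = 2 ^ p * 2 ^ (5 * p ^ 2) * (3840000000000032 * p ^ 17) := by ring
      _ ≤ 2 ^ p * 2 ^ (5 * p ^ 2) * (2 ^ 52 * p ^ 17) := by gcongr; norm_num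
      _ ≤ 2 ^ p * 2 ^ (5 * p ^ 2) * 2 ^ ((52 + 17) * p) := Nat.mul_le_mul_left _ a1
      _ ≤ _ := by
          rw [← pow_add, ← pow_add]
          exact Nat.pow_le_pow_right (by norm_num) (by omega)
  rw [← mul_div_assoc, div_le_one (by positivity)]
  exact_mod_cast a3

theorem par_num (p v t u w : ℕ) (hp : 1 ≤ p) (hw : w ≤ 2 ^ (p * (600 * p ^ 4)))
    (ht : t ≤ 2 ^ (600 * p ^ 5 + 1 + 17 * p * v))
    (hu : u ≤ t * (1 + 2500 * p ^ 5) + (w + 1)) :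
    u ≤ 2 ^ (600 * p ^ 5 + 1 + 17 * p * (v + 1)) := by
  have a1 := poly_le p 2502 12 5 hp (by norm_num)
  have a2 : 1 ≤ p ^ 5 := Nat.one_le_pow _ _ hp
  have a3 : w + 1 ≤ 2 ^ (600 * p ^ 5 + 1 + 17 * p * v) := by
    have b0 : p * (600 * p ^ 4) = 600 * p ^ 5 := by ring
    rw [b0] at hw
    have b1 := Nat.two_pow_pos (600 * p ^ 5)
    calc _ ≤ 2 ^ (600 * p ^ 5 + 1) := by rw [pow_succ]; omega
      _ ≤ _ := Nat.pow_le_pow_right (by norm_num) (by omega)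
  calc u ≤ 2 ^ (600 * p ^ 5 + 1 + 17 * p * v) * (1 + 2500 * p ^ 5) +
        2 ^ (600 * p ^ 5 + 1 + 17 * p * v) := hu.trans (by gcongr)
    _ = 2 ^ (600 * p ^ 5 + 1 + 17 * p * v) * (2 + 2500 * p ^ 5) := by ring
    _ ≤ 2 ^ (600 * p ^ 5 + 1 + 17 * p * v) * 2 ^ ((12 + 5) * p) :=
        Nat.mul_le_mul_left _ (by omega)
    _ = _ := by rw [← pow_add]; congr 1; ring

theorem par_cost (p v u L : ℕ) (hp : 1 ≤ p) (hv : v ≤ p) (hL : L + 2 ≤ 2500 * p ^ 5)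
    (hu : u ≤ 2 ^ (600 * p ^ 5 + 1 + 17 * p * (v + 1))) :
    2 ^ L * (2 * (4 * (u + 1) ^ (24000000000 * p ^ 12))) ≤ 2 ^ (16000000000000 * p ^ 17) := by
  have a1 : p ≤ p ^ 5 := Nat.le_self_pow (by norm_num) p
  have a2 : p * p ≤ p ^ 5 := by rw [← pow_two]; exact Nat.pow_le_pow_right hp (by norm_num)
  have a3 : p * v ≤ p * p := Nat.mul_le_mul_left _ hv
  have a4 : p ^ 5 ≤ p ^ 17 := Nat.pow_le_pow_right hp (by norm_num)
  have a5 : u + 1 ≤ 2 ^ (636 * p ^ 5) := by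
    have b1 := Nat.two_pow_pos (600 * p ^ 5 + 1 + 17 * p * (v + 1))
    calc _ ≤ 2 ^ (600 * p ^ 5 + 1 + 17 * p * (v + 1) + 1) := by rw [pow_succ]; omega
      _ ≤ _ := Nat.pow_le_pow_right (by norm_num) (by nlinarith)
  calc _ ≤ 2 ^ L * (2 * (4 * (2 ^ (636 * p ^ 5)) ^ (24000000000 * p ^ 12))) := by gcongr
    _ = 2 ^ (L + 3 + 15264000000000 * p ^ 17) := by
        rw [← pow_mul, pow_add, pow_add]
        have : 636 * p ^ 5 * (24000000000 * p ^ 12) = 15264000000000 * p ^ 17 := by ring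
        rw [this]
        ring
    _ ≤ _ := Nat.pow_le_pow_right (by norm_num) (by omega)

theorem par_row (p K : ℕ) (hp : 1 ≤ p) (hK : K ≤ 2 ^ p) :
    2 * ((K + 1) * (2 ^ (p * (20000000000000 * p ^ 17)) * 8)) ≤
      2 ^ (30000000000000 * p ^ 18) := by
  have a1 : p ≤ p ^ 18 := Nat.le_self_pow (by norm_num) p
  have a5 : K + 1 ≤ 2 ^ (p + 1) := by
    have := Nat.two_pow_pos p
    rw [pow_succ]
    omega
  have b0 : p * (20000000000000 * p ^ 17) = 20000000000000 * p ^ 18 := by ring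
  rw [b0]
  calc _ ≤ 2 * (2 ^ (p + 1) * (2 ^ (20000000000000 * p ^ 18) * 8)) := by gcongr
    _ = 2 ^ (p + 5 + 20000000000000 * p ^ 18) := by
        rw [pow_add, pow_add, pow_add]
        ring
    _ ≤ _ := Nat.pow_le_pow_right (by norm_num) (by omega)

end Pool.Agent.P.MP_a54059_lc.MA
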