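import Pool.Agent.P.MP_a54059_lc.MA.Restrict
import Pool.Agent.P.MP_a54059_lc.EX.Reveal
import Pool.Agent.P.MP_a54059_lc.EX.Main
import Pool.Agent.P.MP_a54059_lc.MA.Param

/-!
The structure theorem for decision lists of tests that have row classes and column tokens.
-/

namespace Pool.Agent.P.MP_a54059_lc.MA

open Finset Pool.Agent.P.MP_a54059_lc.EX

variable {X Y : Type} [DecidableEq Y]

open Classical in
/-- Many rows agree with one of them on a given query, up to a small error. -/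
def HJ (p K : ℕ) (mid ye : ℕ → X → Y → Prop) : Prop :=
  ∀ t, p ≤ t → ∀ (B : Finset Y) (A : Finset X), A.Nonempty → ∀ j < K, ∃ x0 ∈ A, ∃ A' ⊆ A,
    A.card ≤ 2 ^ (p * t) * A'.card ∧
    ∀ x ∈ A', 2 ^ t * (B.filter (fun y => mid j x0 y ∧ ¬ ye j x y)).card ≤ B.card

/-- Few representatives and few tokens of small multiplicity describe most rows. -/
def HC (p K : ℕ) (hi mid : ℕ → X → Y → Prop) : Prop :=
  ∀ t, p ≤ t → ∀ (S : Finset Y) (A : Finset X) (NF : ℕ → X → Prop), ∃ A' ⊆ A,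
    A.card ≤ 4 * A'.card ∧ ∃ (rp : ℕ → ℕ × X) (W : Finset (Finset Y)),
    W.card ≤ 2 ^ (p * t) ∧ (∀ y, (W.filter (fun s => y ∈ s)).card ≤ 2 ^ p) ∧
    ∀ x ∈ A', ∀ j < K, NF j x → ∃ n < 2 ^ (p * t), NF (rp n).1 (rp n).2 ∧ ∃ C ⊆ W,
      (∀ y ∈ S, hi j x y → mid (rp n).1 (rp n).2 y ∨ ∃ s ∈ C, y ∈ s) ∧
      2 ^ t * ∑ s ∈ C, (s ∩ S).card ≤ S.card

theorem cov_mono {S : Finset Y} {U : Finset (Finset Y × ℕ)} {τ τ' : ℝ} {c : Y → Prop}
    (h : Cov S U τ c) (hτ : τ ≤ τ') : Cov S U τ' c := by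
  obtain ⟨C, a1, a2, a3⟩ := h
  exact ⟨C, a1, a2, a3.trans (mul_le_mul_of_nonneg_right hτ (Nat.cast_nonneg _))⟩

theorem cov_small {S : Finset Y} {U : Finset (Finset Y × ℕ)} {τ : ℝ} {c : Y → Prop}
    [DecidablePred c] (h : Cov S U τ c) : ((S.filter c).card : ℝ) ≤ τ * S.card := by
  obtain ⟨C, -, a2, a3⟩ := h
  refine le_trans ?_ a3
  have b1 : (S.filter c).card ≤ ∑ t ∈ C, (t.1 ∩ S).card := by
    refine le_trans (card_le_card ?_) card_biUnion_le
    intro y hy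
    obtain ⟨c1, c2⟩ := mem_filter.1 hy
    obtain ⟨t, ht, h'⟩ := a2 y c1 c2
    exact mem_biUnion.2 ⟨t, ht, mem_inter.2 ⟨h', c1⟩⟩
  have b2 : ((S.filter c).card : ℝ) ≤ ∑ t ∈ C, ((t.1 ∩ S).card : ℝ) := by exact_mod_cast b1
  refine b2.trans (sum_le_sum fun t _ => ?_)
  exact le_mul_of_one_le_left (Nat.cast_nonneg _) (one_le_pow₀ (by norm_num))

variable [Fintype X] [Fintype Y]

open Classical in
/-- The invariant of round `v`. -/
structure Inv (μ : ℝ) (p K : ℕ) (hi ye : ℕ → X → Y → Prop) (v : ℕ) (A : Finset X)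
    (B : Finset Y) (J : ℕ) (T : Finset (Finset Y × ℕ)) : Prop where
  hA : A.Nonempty
  hB : B.Nonempty
  sA : Fintype.card X ≤ 2 ^ (30000000000000 * p ^ 18 * v) * A.card
  sB : Fintype.card Y ≤ 2 ^ (30000000000000 * p ^ 18 * v) * B.card
  hJ : J ≤ K
  inJ : J < K → ∀ x ∈ A, 2 ^ p * (B.filter (fun y => ¬ ye J x y)).card ≤ B.card
  allow : ∀ t ∈ T, 2 * p ≤ t.2 ∧ t.2 ≤ 2500 * p ^ 5
  pot : ∀ y ∈ B, pot μ T y ≤ μ ^ (202 * p ^ 2 * v) * (v * (3000000000 * (p : ℝ) ^ 11))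
  num : T.card ≤ 2 ^ (600 * p ^ 5 + 1 + 17 * p * v)
  unc : ∀ x ∈ A, ((range J).filter
    (fun j => ¬ Cov B T (1 / 2 ^ (200 * p ^ 2)) (hi j x))).card * 2 ^ v ≤ 2 ^ p

open Classical in
/-- The conclusion of the structure theorem. -/
def Done (p K : ℕ) (hi ye : ℕ → X → Y → Prop) (h : ℕ) : Prop :=
  ∃ (A : Finset X) (B : Finset Y) (J : ℕ), A.Nonempty ∧ B.Nonempty ∧
    Fintype.card X ≤ 2 ^ h * A.card ∧ Fintype.card Y ≤ 2 ^ h * B.card ∧ J ≤ K ∧
    (J < K → ∀ x ∈ A, 2 ^ p * (B.filter (fun y => ¬ ye J x y)).card ≤ B.card) ∧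
    ∀ x ∈ A, ∀ j < J, 2 ^ (2 * p) * (B.filter (hi j x)).card ≤ B.card

theorem psi_le {μ : ℝ} {p : ℕ} (hp : 1 ≤ p) (h1 : 1 ≤ μ) (h2 : μ ^ (500 * p ^ 3) = 2) (v : ℕ)
    (hv : v ≤ p + 1) : μ ^ (202 * p ^ 2 * v) * (v * (3000000000 * (p : ℝ) ^ 11)) ≤
      12000000000 * (p : ℝ) ^ 12 := by
  have a0 : v ≤ 2 * p := by omega
  have a1 : μ ^ (202 * p ^ 2 * v) ≤ 2 ^ 1 := mu_pow h1 h2 _ 1 (by
    calc _ ≤ 202 * p ^ 2 * (2 * p) := Nat.mul_le_mul_left _ a0
      _ = 404 * p ^ 3 := by ring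
      _ ≤ _ := by omega)
  have a2 : (v : ℝ) ≤ 2 * p := by exact_mod_cast a0
  calc _ ≤ (2 : ℝ) ^ 1 * (2 * p * (3000000000 * (p : ℝ) ^ 11)) := by gcongr
    _ = _ := by ring

open Classical in
theorem advance {μ : ℝ} {p K : ℕ} (hp : 1 ≤ p) (hK : K ≤ 2 ^ p) (h1 : 1 ≤ μ)
    (h2 : μ ^ (500 * p ^ 3) = 2) {hi mid ye : ℕ → X → Y → Prop} (hc : HC p K hi mid)
    {v : ℕ} {A : Finset X}
    {B : Finset Y} {J : ℕ} {T : Finset (Finset Y × ℕ)} (I : Inv μ p K hi ye v A B J T)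
    (hv : v ≤ p) (L sh : ℕ) (δ δ' : ℝ) (hL : L + 1200 * p ^ 5 + 2 ≤ 2500 * p ^ 5)
    (hsh : sh ≤ 100 * p ^ 2) (d0 : 0 ≤ δ) (d1 : δ ≤ 500000000 * (p : ℝ) ^ 11)
    (d2 : 500000000 * (p : ℝ) ^ 11 ≤ δ') (d3 : 24120000 * (p : ℝ) ^ 10 * δ ≤ δ')
    (A1 : Finset X) (hA1 : A1.Nonempty)
    (sA : A.card ≤ 2 * ((K + 1) * (2 ^ (p * (20000000000000 * p ^ 17)) * A1.card)))
    (j0 : ℕ) (hj0 : j0 < J) (x0 : X)
    (ha : ∀ x ∈ A1, 2 ^ (20000000000000 * p ^ 17) *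
      (B.filter (fun y => mid j0 x0 y ∧ ¬ ye j0 x y)).card ≤ B.card)
    (hf : Feas μ B T L sh (2 * p + sh) δ (mid j0 x0))
    (hu : ∀ x ∈ A1, ((range j0).filter (fun j =>
      ¬ Cov B T (1 / 2 ^ (200 * p ^ 2)) (hi j x) ∧
      Feas μ B T (L + 1200 * p ^ 5) (sh + 100 * p ^ 2) (2 * p + sh + 100 * p ^ 2) δ'
        (mid j x))).card * 2 ^ (v + 1) ≤ 2 ^ p) :
    ∃ A' B' T', Inv μ p K hi ye (v + 1) A' B' j0 T' := by
  obtain ⟨S, ξ, hS, w⟩ := hf
  have hμ0 : 0 < μ := by linarith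
  have hp' : (1 : ℝ) ≤ p := by exact_mod_cast hp
  have q1 : p ≤ p ^ 2 := Nat.le_self_pow (by norm_num) p
  have q2 : p ^ 2 ≤ p ^ 3 := Nat.pow_le_pow_right hp (by norm_num)
  have q3 : p ^ 3 ≤ p ^ 4 := Nat.pow_le_pow_right hp (by norm_num)
  have q4 : p ^ 4 ≤ p ^ 5 := Nat.pow_le_pow_right hp (by norm_num)
  have q5 : p ^ 5 ≤ p ^ 17 := Nat.pow_le_pow_right hp (by norm_num)
  have q6 : p ^ 17 ≤ p ^ 18 := Nat.pow_le_pow_right hp (by norm_num)
  have q7 : (1 : ℝ) ≤ (p : ℝ) ^ 11 := one_le_pow₀ hp'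
  have q8 : p * (600 * p ^ 4) = 600 * p ^ 5 := by ring
  obtain ⟨Ψ, hΨ⟩ : ∃ Ψ, Ψ = μ ^ (202 * p ^ 2 * v) * (v * (3000000000 * (p : ℝ) ^ 11)) := ⟨_, rfl⟩
  have Ψ0 : 0 ≤ Ψ := by rw [hΨ]; positivity
  have Ψ1 : Ψ ≤ 12000000000 * (p : ℝ) ^ 12 := hΨ ▸ psi_le hp h1 h2 v (by omega)
  have Ψ2 : ∀ y ∈ B, pot μ T y ≤ Ψ := hΨ ▸ I.pot
  have hjK : j0 < K := hj0.trans_le I.hJ
  obtain ⟨A2, n1, n2, rp, W, n3, n4, n5⟩ := hc (600 * p ^ 4) (by omega) S A1
    (fun j x => ¬ Feas μ B T (L + 1200 * p ^ 5) (sh + 100 * p ^ 2) (2 * p + sh + 100 * p ^ 2) δ'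
        (mid j x))
  have hA2 : A2.Nonempty := by
    rw [← card_pos]
    have := hA1.card_pos
    omega
  obtain ⟨τ1, hτ1⟩ : ∃ τ : ℝ, τ = (2 + 16 * (2 ^ (5 * p ^ 2) * (12000000000 * (p : ℝ) ^ 12)) *
    ((2500 * p ^ 5 : ℕ) : ℝ)) / 2 ^ (100 * p ^ 2) := ⟨_, rfl⟩
  obtain ⟨τ, hτ⟩ : ∃ τ : ℝ, τ = (4 + 16 * (2 ^ (5 * p ^ 2) * (12000000000 * (p : ℝ) ^ 12)) *
    ((2500 * p ^ 5 : ℕ) : ℝ)) / 2 ^ (100 * p ^ 2) := ⟨_, rfl⟩
  have τ0 : 0 ≤ τ := by rw [hτ]; positivity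
  have τ2 : τ1 + 2 / 2 ^ (100 * p ^ 2) = τ := by rw [hτ, hτ1]; ring
  have τ3 : τ1 ≤ τ := by
    have : (0 : ℝ) ≤ 2 / 2 ^ (100 * p ^ 2) := by positivity
    linarith
  obtain ⟨S', s1, U, s2, s3, s4, s5, s6, s7, s8⟩ := restrict2 μ h1 B I.hB T
    (fun n => mid (rp n).1 (rp n).2) W (2 ^ (p * (600 * p ^ 4))) L
    (1200 * p ^ 5) sh (2 * p) (100 * p ^ 2) (603 * p ^ 5) (2500 * p ^ 5) (500 * p ^ 4) δ δ'
    (2 ^ (5 * p ^ 2) * (12000000000 * (p : ℝ) ^ 12)) Ψ (200000000 * (p : ℝ) ^ 11)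
    (1 / 2 ^ (200 * p ^ 2)) τ1 S ξ w
    (by
      intro y hy
      refine (card_le_pot μ h1 T _ y (2500 * p ^ 5) (fun t ht =>
        ⟨(mem_filter.1 ht).1, (mem_filter.1 ht).2, (I.allow t (mem_filter.1 ht).1).2⟩)).trans ?_
      exact mul_le_mul (mu_pow h1 h2 _ _ (le_of_eq (by ring))) ((Ψ2 y hy).trans Ψ1)
        (pot_nonneg μ hμ0 T y) (by positivity))
    Ψ2 ((mu_pow h1 h2 _ 1 (by omega)).trans (by norm_num))
    (by
      rw [q8]
      calc 8 * 2 ^ (600 * p ^ 5) = 2 ^ (3 + 600 * p ^ 5) := by rw [pow_add]; norm_num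
        _ ≤ _ := Nat.pow_le_pow_right (by norm_num) (by omega))
    hL d0 (by linarith) (le_trans (le_of_eq (by push_cast; ring)) d3) (by positivity)
    (by
      have a1 : μ ^ (2 * p + sh) ≤ 2 ^ 1 := mu_pow h1 h2 _ 1 (by omega)
      have a2 : μ ^ (2 * p + sh) * Ψ ≤ 2 ^ 1 * (12000000000 * (p : ℝ) ^ 12) := by gcongr
      have a3 : (p : ℝ) ^ 11 ≤ (p : ℝ) ^ 12 := pow_le_pow_right₀ hp' (by norm_num)
      calc _ = 3015000 * (p : ℝ) ^ 10 * (μ ^ (2 * p + sh) * Ψ + δ) := by push_cast; ring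
        _ ≤ 3015000 * (p : ℝ) ^ 10 * (25000000000 * (p : ℝ) ^ 12) := by gcongr; linarith
        _ = 75375000000000000 * (p : ℝ) ^ 22 := by ring
        _ ≤ 100000000000000000 * (p : ℝ) ^ 22 := by gcongr; norm_num
        _ = 200000000 * (p : ℝ) ^ 11 * (500000000 * (p : ℝ) ^ 11) := by ring
        _ ≤ _ := by gcongr)
    (by
      have a1 : μ ^ (500 * p ^ 4) = 2 ^ p := by
        rw [← h2, ← pow_mul]; congr 1; ring
      rw [a1]
      intro y
      exact_mod_cast n4 y)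
    (by
      rw [q8, ← pow_add]
      exact Nat.pow_le_pow_right (by norm_num) (by omega))
    (by
      have a1 : (2 : ℝ) ^ sh ≤ 2 ^ (100 * p ^ 2) := pow_le_pow_right₀ (by norm_num) hsh
      have a2 : (0 : ℝ) ≤ 16 * (2 ^ (5 * p ^ 2) * (12000000000 * (p : ℝ) ^ 12)) *
        ((2500 * p ^ 5 : ℕ) : ℝ) := by positivity
      calc _ ≤ 2 * ((2 : ℝ) ^ (100 * p ^ 2) * (1 / 2 ^ (200 * p ^ 2))) := by gcongr
        _ = 2 / 2 ^ (100 * p ^ 2) := by
            rw [show 200 * p ^ 2 = 100 * p ^ 2 + 100 * p ^ 2 by ring, pow_add]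
            field_simp
        _ ≤ _ := by rw [hτ1]; gcongr; linarith)
    hτ1.ge
  have hS0 : 0 < S'.card := by
    have a1 := w.big
    have a2 := I.hB.card_pos
    rcases Nat.eq_zero_or_pos S'.card with h | h
    · have : S.card = 0 := by omega
      rw [this] at a1
      omega
    · exact h
  have new : ∀ x ∈ A2, ∀ j < K, ¬ Feas μ B T (L + 1200 * p ^ 5) (sh + 100 * p ^ 2)
      (2 * p + sh + 100 * p ^ 2) δ' (mid j x) → Cov S' U τ (hi j x) := by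
    intro x hx j hj hn
    obtain ⟨n, a1, a2, C, a3, a4, a5⟩ := n5 x hx j hj hn
    have k1 := s8 n a1 a2
    have k2 : Cov S' U (2 / 2 ^ (100 * p ^ 2)) (fun y => ∃ s ∈ C, y ∈ s) := by
      refine cov_family C (fun s => (s, 500 * p ^ 4)) (fun s hs => s7 s (a3 hs))
        (fun y _ h => h) ?_
      have b1 : ∑ s ∈ C, (s ∩ S').card ≤ ∑ s ∈ C, (s ∩ S).card :=
        sum_le_sum fun s _ => card_le_card (inter_subset_inter_left s1)
      have b2 : 2 ^ (500 * p ^ 4 + 100 * p ^ 2) * ∑ s ∈ C, (s ∩ S').card ≤ 2 * S'.card :=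
        (Nat.mul_le_mul (Nat.pow_le_pow_right (by norm_num) (by omega)) b1).trans (a5.trans s2)
      have b3 : (2 : ℝ) ^ (500 * p ^ 4 + 100 * p ^ 2) * ∑ s ∈ C, ((s ∩ S').card : ℝ) ≤
          2 * S'.card := by exact_mod_cast b2
      simp only [mass]
      rw [← mul_sum, div_mul_eq_mul_div, le_div_iff₀ (by positivity)]
      rw [pow_add] at b3
      linarith
    exact cov_union k1 k2 (fun y hy h => a4 y (s1 hy) h) τ2.le
  have key : μ ^ (200 * p ^ 2) * (μ ^ (2 * p) * Ψ + δ + 4 * (200000000 * (p : ℝ) ^ 11) + 2) ≤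
      μ ^ (202 * p ^ 2 * (v + 1)) * (((v + 1 : ℕ) : ℝ) * (3000000000 * (p : ℝ) ^ 11)) := by
    have a1 : μ ^ (200 * p ^ 2) ≤ 2 ^ 1 := mu_pow h1 h2 _ 1 (by omega)
    have a2 : μ ^ (200 * p ^ 2) * (δ + 4 * (200000000 * (p : ℝ) ^ 11) + 2) ≤
        2 ^ 1 * (1500000000 * (p : ℝ) ^ 11) := by gcongr; linarith
    have a3 : 3000000000 * (p : ℝ) ^ 11 ≤
        μ ^ (202 * p ^ 2 * (v + 1)) * (3000000000 * (p : ℝ) ^ 11) :=
      le_mul_of_one_le_left (by positivity) (one_le_pow₀ h1)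
    have a4 : μ ^ (200 * p ^ 2) * (μ ^ (2 * p) * μ ^ (202 * p ^ 2 * v)) ≤
        μ ^ (202 * p ^ 2 * (v + 1)) := by
      rw [← pow_add, ← pow_add]
      exact pow_le_pow_right₀ h1 (by rw [mul_add]; omega)
    have a5 : μ ^ (200 * p ^ 2) * (μ ^ (2 * p) * Ψ) ≤
        μ ^ (202 * p ^ 2 * (v + 1)) * (v * (3000000000 * (p : ℝ) ^ 11)) := by
      calc _ = μ ^ (200 * p ^ 2) * (μ ^ (2 * p) * μ ^ (202 * p ^ 2 * v)) *
            (v * (3000000000 * (p : ℝ) ^ 11)) := by rw [hΨ]; ring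
        _ ≤ _ := mul_le_mul_of_nonneg_right a4 (by positivity)
    push_cast
    linarith
  have key2 : ∀ y ∈ S', μ ^ (200 * p ^ 2) * pot μ U y ≤
      μ ^ (202 * p ^ 2 * (v + 1)) * (((v + 1 : ℕ) : ℝ) * (3000000000 * (p : ℝ) ^ 11)) :=
    fun y hy => (mul_le_mul_of_nonneg_left (s5 y hy) (by positivity)).trans key
  obtain ⟨B', b1, A', b2, T', b3, b4, b5, b6, b7, b8⟩ := reveal μ h1 S' (card_pos.1 hS0) U A2 hA2
    K (200 * p ^ 2) (2 * p) (24000000000 * p ^ 12) τ τ0 (hτ ▸ par_tau p K hp hK)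
    (by
      intro y hy
      have a1 : μ ^ (2 * p) ≤ 2 ^ 1 := mu_pow h1 h2 _ 1 (by omega)
      have a2 := (key2 y hy).trans (psi_le hp h1 h2 (v + 1) (by omega))
      have a3 := pot_nonneg μ hμ0 U y
      calc _ = μ ^ (2 * p) * (μ ^ (200 * p ^ 2) * pot μ U y) := by rw [pow_add]; ring
        _ ≤ 2 ^ 1 * (12000000000 * (p : ℝ) ^ 12) := by gcongr
        _ = _ := by push_cast; ring)
    hi
  have hU := par_num p v T.card U.card _ hp n3 I.num s3
  have cost : B.card ≤ 2 ^ (16000000000000 * p ^ 17) * B'.card := by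
    calc _ ≤ _ := w.big
      _ ≤ 2 ^ L * (2 * S'.card) := by gcongr
      _ ≤ 2 ^ L * (2 * (4 * (U.card + 1) ^ (24000000000 * p ^ 12) * B'.card)) := by gcongr
      _ = 2 ^ L * (2 * (4 * (U.card + 1) ^ (24000000000 * p ^ 12))) * B'.card := by ring
      _ ≤ _ := Nat.mul_le_mul_right _ (par_cost p v U.card L hp hv (by omega) hU)
  refine ⟨A', B', T', ?_, ?_, ?_, ?_, hjK.le, ?_, ?_, ?_, b5.trans hU, ?_⟩
  · rw [← card_pos]
    have := hA2.card_pos
    omega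
  · rw [← card_pos]
    rcases Nat.eq_zero_or_pos B'.card with h | h
    · rw [h] at b3; omega
    · exact h
  · refine le_cost I.sA ?_ (par_row p K hp hK)
    calc _ ≤ _ := sA
      _ ≤ 2 * ((K + 1) * (2 ^ (p * (20000000000000 * p ^ 17)) * (4 * (2 * A'.card)))) := by
          gcongr
          exact n2.trans (Nat.mul_le_mul_left _ b4)
      _ = _ := by ring
  · exact le_cost I.sB cost (Nat.pow_le_pow_right (by norm_num) (by omega))
  · intro _ x hx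
    have a1 := ha x (n1 (b2 hx))
    have a2 : (B'.filter (fun y => ¬ ye j0 x y)).card ≤
        (B.filter (fun y => mid j0 x0 y ∧ ¬ ye j0 x y)).card := by
      apply card_le_card
      intro y hy
      obtain ⟨c1, c2⟩ := mem_filter.1 hy
      exact mem_filter.2 ⟨w.sub (s1 (b1 c1)), hS y (s1 (b1 c1)), c2⟩
    have a3 : 2 ^ (16000000000000 * p ^ 17) * (2 ^ p * (B'.filter (fun y => ¬ ye j0 x y)).card) ≤
        2 ^ (16000000000000 * p ^ 17) * B'.card := by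
      rw [← mul_assoc, ← pow_add]
      exact (Nat.mul_le_mul (Nat.pow_le_pow_right (by norm_num) (by omega)) a2).trans
        (a1.trans cost)
    exact Nat.le_of_mul_le_mul_left a3 (Nat.two_pow_pos _)
  · intro t ht
    obtain ⟨c1, u, c2, c3⟩ := b6 t ht
    refine ⟨c1, ?_⟩
    rcases s4 u c2 with ⟨t0, c4, c5⟩ | c4 | c4
    · have := (I.allow t0 c4).2
      omega
    · omega
    · omega
  · intro y hy
    exact (b7 y).trans (key2 y (b1 hy))
  · intro x hx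
    refine le_trans (Nat.mul_le_mul_right _ (card_le_card ?_)) (hu x (n1 (b2 hx)))
    intro j hj
    obtain ⟨c1, c2⟩ := mem_filter.1 hj
    have c3 : j < K := (mem_range.1 c1).trans hjK
    refine mem_filter.2 ⟨c1, fun h => c2 (b8 x hx j c3 (cov_mono (s6 _ h) τ3)), ?_⟩
    by_contra h
    exact c2 (b8 x hx j c3 (new x (b2 hx) j c3 h))

theorem step {μ : ℝ} {p K : ℕ} (hp : 1 ≤ p) (hK : K ≤ 2 ^ p) (h1 : 1 ≤ μ)
    (h2 : μ ^ (500 * p ^ 3) = 2) {hi mid ye : ℕ → X → Y → Prop} (hc : HC p K hi mid)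
    (hj : HJ p K mid ye) (hm : ∀ j x y, hi j x y → mid j x y) {v : ℕ} {A : Finset X}
    {B : Finset Y} {J : ℕ} {T : Finset (Finset Y × ℕ)} (I : Inv μ p K hi ye v A B J T)
    (hv : v ≤ p) :
    Done p K hi ye (30000000000000 * p ^ 18 * (v + 1)) ∨
      ∃ A' B' J' T', Inv μ p K hi ye (v + 1) A' B' J' T' := by
  classical
  have hp' : (1 : ℝ) ≤ p := by exact_mod_cast hp
  have q2 : p ≤ p ^ 5 := Nat.le_self_pow (by norm_num) p
  have q3 : p ≤ p ^ 17 := Nat.le_self_pow (by norm_num) p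
  set δ : ℕ → ℝ := fun b =>
    500000000 * (p : ℝ) ^ 11 * (24120000 * (p : ℝ) ^ 10) ^ b / (24120000 * (p : ℝ) ^ 10) with hδ
  set F : ℕ → ℕ → X → Prop := fun b j x => Feas μ B T (2 * p + b * (1200 * p ^ 5))
    (b * (100 * p ^ 2)) (2 * p + b * (100 * p ^ 2)) (δ b) (mid j x) with hF
  set C : X → Finset ℕ := fun x => (range J).filter
    (fun j => ¬ Cov B T (1 / 2 ^ (200 * p ^ 2)) (hi j x)) with hC
  have ex1 : ∀ x, ∃ b ≤ 1, 2 * ((C x).filter
      (fun j => F (b + 1) j x ∧ ¬ F b j x)).card ≤ (C x).card := by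
    intro x
    have a1 := card_filter_add_card_filter_not (s := C x) (fun j => F 1 j x)
    have a2 : ((C x).filter (fun j => F (0 + 1) j x ∧ ¬ F 0 j x)).card ≤
        ((C x).filter (fun j => F 1 j x)).card :=
      card_le_card (monotone_filter_right _ fun j _ h => h.1)
    have a3 : ((C x).filter (fun j => F (1 + 1) j x ∧ ¬ F 1 j x)).card ≤
        ((C x).filter (fun j => ¬ F 1 j x)).card :=
      card_le_card (monotone_filter_right _ fun j _ h => h.2)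
    by_cases h : 2 * ((C x).filter (fun j => F 1 j x)).card ≤ (C x).card
    · exact ⟨0, by norm_num, by omega⟩
    · exact ⟨1, le_rfl, by omega⟩
  choose bb e1 e2 using ex1
  obtain ⟨x1, x1A, p1⟩ := popular A I.hA bb 2 (by
    refine (card_le_card (t := range 2) ?_).trans (card_range 2).le
    intro b hb
    obtain ⟨x, -, rfl⟩ := mem_image.1 hb
    exact mem_range.2 (Nat.lt_succ_of_le (e1 x)))
  obtain ⟨b, hb⟩ : ∃ b, bb x1 = b := ⟨_, rfl⟩
  have hb1 : b ≤ 1 := hb ▸ e1 x1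
  have ne1 : (A.filter (fun x => bb x = bb x1)).Nonempty := ⟨x1, mem_filter.2 ⟨x1A, rfl⟩⟩
  rw [hb] at p1 ne1
  have ex2 : ∀ x, ∃ m ≤ J, (∀ j < m, ¬ F b j x) ∧ (m < J → F b m x) := by
    intro x
    have ex : ∃ j, j = J ∨ F b j x := ⟨J, Or.inl rfl⟩
    refine ⟨Nat.find ex, Nat.find_min' ex (Or.inl rfl),
      fun j hj h => Nat.find_min ex hj (Or.inr h), fun h => ?_⟩
    exact (Nat.find_spec ex).resolve_left h.ne
  choose mm f1 f2 f3 using ex2
  obtain ⟨x2, x2A, p2⟩ := popular _ ne1 mm (K + 1) (by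
    refine (card_le_card (t := range (K + 1)) ?_).trans (card_range _).le
    intro b hb
    obtain ⟨x, -, rfl⟩ := mem_image.1 hb
    exact mem_range.2 (Nat.lt_succ_of_le ((f1 x).trans I.hJ)))
  obtain ⟨j0, hj0⟩ : ∃ j0, mm x2 = j0 := ⟨_, rfl⟩
  have ne2 : ((A.filter (fun x => bb x = b)).filter (fun x => mm x = mm x2)).Nonempty :=
    ⟨x2, mem_filter.2 ⟨x2A, rfl⟩⟩
  rw [hj0] at p2 ne2
  set A2 := (A.filter (fun x => bb x = b)).filter (fun x => mm x = j0) with hA2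
  have m2 : ∀ x ∈ A2, x ∈ A ∧ bb x = b ∧ mm x = j0 := fun x hx =>
    ⟨(mem_filter.1 (mem_filter.1 hx).1).1, (mem_filter.1 (mem_filter.1 hx).1).2,
      (mem_filter.1 hx).2⟩
  have δ0 : 0 ≤ δ b := by simp only [hδ]; positivity
  have hL : 2 * p + b * (1200 * p ^ 5) + 1200 * p ^ 5 + 2 ≤ 2500 * p ^ 5 := by
    have := Nat.mul_le_mul_right (1200 * p ^ 5) hb1
    omega
  have hsh : b * (100 * p ^ 2) ≤ 100 * p ^ 2 := by
    have := Nat.mul_le_mul_right (100 * p ^ 2) hb1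
    omega
  rcases (hj0 ▸ f1 x2 : j0 ≤ J).eq_or_lt with hJ | hJ
  · left
    refine ⟨A2, B, J, ne2, I.hB, ?_, ?_, I.hJ, fun h x hx => I.inJ h x (m2 x hx).1, ?_⟩
    · refine le_cost I.sA ?_ (par_row p K hp hK)
      have a1 := Nat.two_pow_pos (p * (20000000000000 * p ^ 17))
      calc _ ≤ _ := p1
        _ ≤ 2 * ((K + 1) * A2.card) := by gcongr
        _ ≤ 2 * ((K + 1) * ((2 ^ (p * (20000000000000 * p ^ 17)) * 8) * A2.card)) := by
            gcongr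
            exact Nat.le_mul_of_pos_left _ (by omega)
        _ = _ := by ring
    · exact le_cost (k := 1) I.sB (by omega) Nat.one_le_two_pow
    · intro x hx j hj
      by_contra hc
      refine f2 x j (by rw [(m2 x hx).2.2, hJ]; exact hj) ?_
      refine feas_of_heavy μ B T _ _ _ (2 * p) _ _ ((not_le.1 hc).le.trans ?_)
        (Nat.le_add_right _ _) (Nat.le_add_right _ _) (fun t ht => (I.allow t ht).1) δ0
      apply Nat.mul_le_mul_left
      apply card_le_card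
      intro y hy
      exact mem_filter.2 ⟨(mem_filter.1 hy).1, hm j x y (mem_filter.1 hy).2⟩
  right
  have m3 : ∀ x ∈ A2, F b j0 x := fun x hx => by
    have := f3 x
    rw [(m2 x hx).2.2] at this
    exact this hJ
  obtain ⟨x3, x3A, A3, s3, p3, p4⟩ := hj (20000000000000 * p ^ 17) (by omega) B A2 ne2 j0
    (hJ.trans_le I.hJ)
  have ne3 : A3.Nonempty := by
    rw [← card_pos]
    have := ne2.card_pos
    rcases Nat.eq_zero_or_pos A3.card with h | h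
    · rw [h] at p3; omega
    · exact h
  have G1 : (1 : ℝ) ≤ 24120000 * (p : ℝ) ^ 10 := by
    have : (1 : ℝ) ≤ (p : ℝ) ^ 10 := one_le_pow₀ hp'
    linarith
  obtain ⟨A', B', T', I'⟩ := advance hp hK h1 h2 hc I hv _ _ (δ b) (δ (b + 1)) hL hsh δ0
    (by
      simp only [hδ]
      rw [div_le_iff₀ (by positivity)]
      have := pow_le_pow_right₀ G1 hb1
      rw [pow_one] at this
      gcongr)
    (by
      simp only [hδ]
      rw [le_div_iff₀ (by positivity)]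
      have := pow_le_pow_right₀ G1 (show 1 ≤ b + 1 by omega)
      rw [pow_one] at this
      gcongr)
    (by
      simp only [hδ]
      apply le_of_eq
      rw [pow_succ _ b]
      field_simp)
    A3 ne3 (p1.trans (Nat.mul_le_mul_left _ (p2.trans (Nat.mul_le_mul_left _ p3))))
    j0 hJ x3 p4 (m3 x3 x3A)
    (by
      intro x hx
      obtain ⟨a1, a2, a3⟩ := m2 x (s3 hx)
      have a4 := e2 x
      have a5 := I.unc x a1
      rw [a2] at a4
      have e : ∀ m n : ℕ, m ≤ n → m * 2 ^ (v + 1) ≤ 2 * n * 2 ^ v := fun m n h => by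
        calc _ ≤ n * 2 ^ (v + 1) := Nat.mul_le_mul_right _ h
          _ = _ := by ring
      refine le_trans (e _ _ (card_le_card ?_)) ((Nat.mul_le_mul_right _ a4).trans a5)
      intro j hj
      obtain ⟨c1, c2, c3⟩ := mem_filter.1 hj
      have c4 := mem_range.1 c1
      refine mem_filter.2 ⟨mem_filter.2 ⟨mem_range.2 (c4.trans hJ), c2⟩, ?_,
        f2 x j (a3 ▸ c4)⟩
      simp only [hF]
      rw [add_mul, add_mul, one_mul, one_mul, ← add_assoc, ← add_assoc (2 * p) _ (100 * p ^ 2)]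
      exact c3)
  exact ⟨A', B', j0, T', I'⟩

omit [DecidableEq Y] in
theorem done_mono {p K : ℕ} {hi ye : ℕ → X → Y → Prop} {h h' : ℕ} (hh : h ≤ h')
    (d : Done p K hi ye h) : Done p K hi ye h' := by
  obtain ⟨A, B, J, a1, a2, a3, a4, a5⟩ := d
  have := Nat.pow_le_pow_right (show 0 < 2 by norm_num) hh
  exact ⟨A, B, J, a1, a2, a3.trans (Nat.mul_le_mul_right _ this),
    a4.trans (Nat.mul_le_mul_right _ this), a5⟩

theorem done_last {μ : ℝ} {p K : ℕ} {hi ye : ℕ → X → Y → Prop} {A : Finset X}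
    {B : Finset Y} {J : ℕ} {T : Finset (Finset Y × ℕ)} (I : Inv μ p K hi ye (p + 1) A B J T) :
    Done p K hi ye (30000000000000 * p ^ 18 * (p + 1)) := by
  classical
  refine ⟨A, B, J, I.hA, I.hB, I.sA, I.sB, I.hJ, I.inJ, ?_⟩
  intro x hx j hj
  have a1 : Cov B T (1 / 2 ^ (200 * p ^ 2)) (hi j x) := by
    by_contra h
    have b1 := I.unc x hx
    have b2 : 1 ≤ ((range J).filter
        (fun j => ¬ Cov B T (1 / 2 ^ (200 * p ^ 2)) (hi j x))).card :=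
      card_pos.2 ⟨j, mem_filter.2 ⟨mem_range.2 hj, h⟩⟩
    have b3 : 2 ^ (p + 1) ≤ 2 ^ p := le_trans (Nat.le_mul_of_pos_left _ b2) b1
    have := (Nat.pow_le_pow_iff_right (by norm_num)).1 b3
    omega
  have a2 := cov_small a1
  have q1 : p ≤ p ^ 2 := Nat.le_self_pow (by norm_num) p
  have a3 : (2 : ℝ) ^ (2 * p) ≤ 2 ^ (200 * p ^ 2) := pow_le_pow_right₀ (by norm_num) (by omega)
  rw [div_mul_eq_mul_div, le_div_iff₀ (by positivity), one_mul] at a2
  have a4 : (2 : ℝ) ^ (2 * p) * (B.filter (hi j x)).card ≤ B.card := by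
    have := mul_le_mul_of_nonneg_right a3 (Nat.cast_nonneg (α := ℝ) (B.filter (hi j x)).card)
    linarith
  exact_mod_cast a4

/-- The structure theorem. -/
theorem structure_thm [Nonempty X] [Nonempty Y] (p K : ℕ) (hp : 1 ≤ p) (hK : K ≤ 2 ^ p)
    (hi mid ye : ℕ → X → Y → Prop) (hc : HC p K hi mid) (hj : HJ p K mid ye)
    (hm : ∀ j x y, hi j x y → mid j x y) : Done p K hi ye (60000000000000 * p ^ 19) := by
  classical
  obtain ⟨μ, h1, h2⟩ := exists_mu (500 * p ^ 3) (by positivity)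
  have main : ∀ r v, v + r = p + 1 → ∀ A B J T, Inv μ p K hi ye v A B J T →
      Done p K hi ye (30000000000000 * p ^ 18 * (p + 1)) := by
    intro r
    induction r with
    | zero =>
      intro v hv A B J T I
      rw [add_zero] at hv
      subst hv
      exact done_last I
    | succ r ih =>
      intro v hv A B J T I
      rcases step hp hK h1 h2 hc hj hm I (by omega) with d | ⟨A', B', J', T', I'⟩
      · exact done_mono (Nat.mul_le_mul_left _ (by omega)) d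
      · exact ih (v + 1) (by omega) A' B' J' T' I'
  refine done_mono ?_ (main (p + 1) 0 (by omega) univ univ K ∅ ⟨univ_nonempty, univ_nonempty,
    by simp, by simp, le_rfl, fun h => absurd h (lt_irrefl _), by simp, by simp [pot], by simp,
    ?_⟩)
  · calc _ ≤ 30000000000000 * p ^ 18 * (2 * p) := Nat.mul_le_mul_left _ (by omega)
      _ = _ := by ring
  · intro x _
    rw [pow_zero, mul_one]
    exact (card_filter_le _ _).trans ((card_range K).le.trans hK)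

end Pool.Agent.P.MP_a54059_lc.MA
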