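import Pool.Agent.P.MP_a54059_lc.MA.Sketch
import Pool.Agent.P.MP_a54059_lc.MA.Main

/-!
Row classes and column tokens from one-way sketches.
-/

namespace Pool.Agent.P.MP_a54059_lc.MA

open Finset Pool.Agent.P.MP_a54059_lc.EX

variable {X Y : Type}

theorem markov2 (A : Finset X) (bd : X → ℝ) (h0 : ∀ x, 0 ≤ bd x) (c : ℝ) (hc : 0 ≤ c)
    (h : ∑ x ∈ A, bd x ≤ c / 2 * A.card) :
    ∃ A' ⊆ A, A.card ≤ 2 * A'.card ∧ ∀ x ∈ A', bd x ≤ c := by
  classical
  rcases hc.eq_or_lt with rfl | hc
  · refine ⟨A, Subset.refl _, by omega, fun x hx => ?_⟩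
    have := single_le_sum (fun x _ => h0 x) hx
    linarith
  · refine ⟨_, filter_subset _ _, markov A (fun x => bd x / c)
      (fun x _ => div_nonneg (h0 x) hc.le) ?_, fun x hx => ?_⟩
    · rw [← sum_div, div_le_iff₀ hc]
      linarith
    · exact ((div_lt_one hc).1 (mem_filter.1 hx).2).le

theorem sum_bad {Ω P : Type} [Fintype Ω] [DecidableEq Ω] (Z : Finset P) (bad : P → Finset Ω)
    (η : ℝ) (h : ∀ z ∈ Z, ((bad z).card : ℝ) ≤ η * Fintype.card Ω) :
    ∑ s, ((Z.filter (fun z => s ∈ bad z)).card : ℝ) ≤ ∑ _s : Ω, η * Z.card := by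
  have a1 : ∑ s, (Z.filter (fun z => s ∈ bad z)).card = ∑ z ∈ Z, (bad z).card := by
    simp only [card_filter]
    rw [sum_comm]
    apply sum_congr rfl
    intro z _
    rw [← card_filter, filter_mem_eq_inter, univ_inter]
  have a2 : ∑ s, ((Z.filter (fun z => s ∈ bad z)).card : ℝ) = ∑ z ∈ Z, ((bad z).card : ℝ) := by
    exact_mod_cast a1
  rw [a2, sum_const, card_univ, nsmul_eq_mul]
  calc _ ≤ ∑ _z ∈ Z, η * Fintype.card Ω := sum_le_sum h
    _ = _ := by rw [sum_const, nsmul_eq_mul]; ring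

theorem greedy {Ω P : Type} [Fintype Ω] [Nonempty Ω] [DecidableEq Ω] (Z : Finset P)
    (bad : P → Finset Ω) (η : ℝ) (hη : η ≤ 1 / 4)
    (h : ∀ z ∈ Z, ((bad z).card : ℝ) ≤ η * Fintype.card Ω) (u : ℕ) :
    ∀ Z' ⊆ Z, Z'.card < 2 ^ u → ∃ L : Finset Ω, L.card ≤ u ∧ (∀ z ∈ Z', ∃ s ∈ L, s ∉ bad z) ∧
      ∀ s ∈ L, ((Z.filter (fun z => s ∈ bad z)).card : ℝ) ≤ 2 * η * Z.card := by
  induction u with
  | zero =>
    intro Z' _ h2
    have : Z' = ∅ := card_eq_zero.1 (by omega)
    exact ⟨∅, by simp, by simp [this], by simp⟩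
  | succ u ih =>
    intro Z' h1 h2
    rcases Z'.eq_empty_or_nonempty with rfl | hne
    · exact ⟨∅, by simp, by simp, by simp⟩
    have p1 : (0 : ℝ) < Z'.card := by exact_mod_cast hne.card_pos
    have p2 : (0 : ℝ) < Z.card := by exact_mod_cast (hne.mono h1).card_pos
    have a1 := sum_bad Z bad η h
    have a2 := sum_bad Z' bad η fun z hz => h z (h1 hz)
    obtain ⟨s, -, hs⟩ := exists_le_of_sum_le (univ_nonempty (α := Ω))
      (f := fun s => (Z.card : ℝ) * (Z'.filter (fun z => s ∈ bad z)).card +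
        Z'.card * (Z.filter (fun z => s ∈ bad z)).card)
      (g := fun _ => (Z.card : ℝ) * (η * Z'.card) + Z'.card * (η * Z.card)) (by
        have c1 := mul_le_mul_of_nonneg_left a1 p1.le
        have c2 := mul_le_mul_of_nonneg_left a2 p2.le
        rw [mul_sum, mul_sum] at c1 c2
        rw [sum_add_distrib, sum_add_distrib]
        exact add_le_add c2 c1)
    have n1 : (0 : ℝ) ≤ Z.card * (Z'.filter (fun z => s ∈ bad z)).card := by positivity
    have n2 : (0 : ℝ) ≤ Z'.card * (Z.filter (fun z => s ∈ bad z)).card := by positivity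
    have b1 : ((Z'.filter (fun z => s ∈ bad z)).card : ℝ) ≤ 2 * η * Z'.card := by
      apply le_of_mul_le_mul_left _ p2
      linarith
    have b2 : ((Z.filter (fun z => s ∈ bad z)).card : ℝ) ≤ 2 * η * Z.card := by
      apply le_of_mul_le_mul_left _ p1
      linarith
    have b3 : 2 * (Z'.filter (fun z => s ∈ bad z)).card ≤ Z'.card := by
      have : (2 : ℝ) * (Z'.filter (fun z => s ∈ bad z)).card ≤ Z'.card := by nlinarith
      exact_mod_cast this
    obtain ⟨L, l1, l2, l3⟩ := ih (Z'.filter (fun z => s ∈ bad z)) ((filter_subset _ _).trans h1)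
      (by rw [pow_succ] at h2; omega)
    refine ⟨insert s L, (card_insert_le _ _).trans (by omega), fun z hz => ?_, fun s' hs' => ?_⟩
    · by_cases hb : s ∈ bad z
      · obtain ⟨s', c1, c2⟩ := l2 z (mem_filter.2 ⟨hz, hb⟩)
        exact ⟨s', mem_insert_of_mem c1, c2⟩
      · exact ⟨s, mem_insert_self _ _, hb⟩
    · rcases mem_insert.1 hs' with rfl | c
      · exact b2
      · exact l3 s' c

theorem card_rows {Ω : Type} [DecidableEq Ω] (A : Finset X) (S : Finset Y)
    (bad : X × Y → Finset Ω) (s : Ω) :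
    ∑ x ∈ A, (S.filter (fun y => s ∈ bad (x, y))).card =
      ((A ×ˢ S).filter (fun z => s ∈ bad z)).card := by
  simp only [card_filter]
  rw [sum_product]

/-- Two rows differ noticeably at a column. -/
def Far (q : ℕ) (e : ℕ → X → Y → ℝ) (x x' : X) (y : Y) : Prop :=
  ∃ i < q, 1 / 20 < |e i x y - e i x' y|

/-- The first row exceeds the second by a large margin at a column. -/
def Sep (q : ℕ) (e : ℕ → X → Y → ℝ) (x x' : X) (y : Y) : Prop :=
  ∃ i < q, 1 / 6 ≤ e i x y - e i x' y

open Classical in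
theorem hp_one {m q : ℕ} {η : ℝ} {e : ℕ → X → Y → ℝ} (h : Sk m η q e) (S : Finset Y)
    (A : Finset X) : ∃ (cls bd : X → ℕ), (∀ x, cls x < 2 ^ m) ∧
      ∑ x ∈ A, (bd x : ℝ) ≤ η * (A.card * S.card) ∧
      ∀ x x', cls x = cls x' → (S.filter (Far q e x x')).card ≤ bd x + bd x' := by
  obtain ⟨Ω, G, i1, i2, α, est, bad, a1, a2, a3⟩ := h
  obtain ⟨s, -, hs⟩ := exists_le_of_sum_le (univ_nonempty (α := Ω))
    (sum_bad (A ×ˢ S) (fun z => bad z.1 z.2) η fun z _ => (a3 z.1 z.2).1)
  refine ⟨fun x => Fintype.equivFin G (α s x), fun x => (S.filter (fun y => s ∈ bad x y)).card,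
    fun x => (Fintype.equivFin G (α s x)).2.trans_le a2, ?_, ?_⟩
  · rw [card_product] at hs
    push_cast at hs
    refine le_trans (le_of_eq ?_) hs
    exact_mod_cast card_rows A S (fun z => bad z.1 z.2) s
  · intro x x' hx
    have b1 : α s x = α s x' := (Fintype.equivFin G).injective (Fin.ext hx)
    refine le_trans (card_le_card ?_) (card_union_le _ _)
    intro y hy
    obtain ⟨c1, i, c2, c3⟩ := mem_filter.1 hy
    by_contra hc
    rw [mem_union, not_or] at hc
    obtain ⟨d1, d2⟩ := abs_le.1 ((a3 x y).2 s (fun h => hc.1 (mem_filter.2 ⟨c1, h⟩)) i c2)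
    obtain ⟨d3, d4⟩ := abs_le.1 ((a3 x' y).2 s (fun h => hc.2 (mem_filter.2 ⟨c1, h⟩)) i c2)
    rw [b1] at d1 d2
    rcases lt_abs.1 c3 with d | d <;> linarith

open Classical in
theorem hd_one [DecidableEq Y] {m q u : ℕ} {η : ℝ} {e : ℕ → X → Y → ℝ}
    (h : Sk m η q (fun i y x => e i x y)) (hη : η ≤ 1 / 8) (S : Finset Y) (A : Finset X)
    (hu : A.card * S.card < 2 ^ u) (r : X → X) :
    ∃ (W : Finset (Finset Y)) (C : X → Finset (Finset Y)) (bd : X → ℕ), W.card ≤ u * 2 ^ m ∧
      (∀ y, (W.filter (fun s => y ∈ s)).card ≤ u) ∧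
      ∑ x ∈ A, (bd x : ℝ) ≤ 4 * η * u * (A.card * S.card) ∧
      ∀ x ∈ A, C x ⊆ W ∧ (∀ y ∈ S, Sep q e x (r x) y → ∃ w ∈ C x, y ∈ w) ∧
        ∑ w ∈ C x, (w ∩ S).card ≤ u * (S.filter (Far q e x (r x))).card + bd x := by
  obtain ⟨Ω, G, i1, i2, β, est, bad, a1, a2, a3⟩ := h
  have η0 : 0 ≤ η ∨ A ×ˢ S = ∅ := by
    rcases (A ×ˢ S).eq_empty_or_nonempty with h | ⟨z, _⟩
    · exact Or.inr h
    · left
      have b1 := (Nat.cast_nonneg (α := ℝ) _).trans (a3 z.2 z.1).1
      have b2 : (0 : ℝ) < Fintype.card Ω := by exact_mod_cast Fintype.card_pos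
      exact nonneg_of_mul_nonneg_left b1 b2
  set bb : X × Y → Finset Ω := fun z => bad z.2 z.1 ∪ bad z.2 (r z.1) with hbb
  obtain ⟨L, l1, l2, l3⟩ := greedy (A ×ˢ S) bb (2 * η) (by linarith) (by
    intro z _
    have b1 := (Nat.cast_le (α := ℝ)).2 (card_union_le (bad z.2 z.1) (bad z.2 (r z.1)))
    push_cast at b1
    have b2 := (a3 z.2 z.1).1
    have b3 := (a3 z.2 (r z.1)).1
    simp only [hbb]
    linarith) u (A ×ˢ S) (Subset.refl _) (by rwa [card_product])
  have good : ∀ x y s, s ∉ bb (x, y) → ∀ i < q, |est s i (β s y) x - e i x y| ≤ 1 / 40 ∧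
      |est s i (β s y) (r x) - e i (r x) y| ≤ 1 / 40 := by
    intro x y s hs i hi
    simp only [hbb, mem_union, not_or] at hs
    exact ⟨(a3 y x).2 s hs.1 i hi, (a3 y (r x)).2 s hs.2 i hi⟩
  set fib : Ω × G → Finset Y := fun z => S.filter (fun y => β z.1 y = z.2) with hfib
  set det : X → Ω × G → Prop := fun x z =>
    ∃ i < q, 1 / 9 ≤ est z.1 i z.2 x - est z.1 i z.2 (r x) with hdet
  refine ⟨(L ×ˢ univ).image fib, fun x => ((L ×ˢ univ).filter (det x)).image fib,
    fun x => ∑ s ∈ L, (S.filter (fun y => s ∈ bb (x, y))).card, ?_, ?_, ?_, ?_⟩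
  · refine card_image_le.trans ?_
    rw [card_product, card_univ]
    exact Nat.mul_le_mul l1 a2
  · intro y
    refine le_trans (card_le_card (t := L.image (fun s => fib (s, β s y))) ?_)
      (card_image_le.trans l1)
    intro w hw
    obtain ⟨b1, b2⟩ := mem_filter.1 hw
    obtain ⟨z, b3, rfl⟩ := mem_image.1 b1
    refine mem_image.2 ⟨z.1, (mem_product.1 b3).1, ?_⟩
    rw [(mem_filter.1 b2).2]
  · push_cast
    rw [sum_comm]
    have b1 : ∀ s ∈ L, ∑ x ∈ A, ((S.filter (fun y => s ∈ bb (x, y))).card : ℝ) ≤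
        4 * η * (A.card * S.card) := by
      intro s hs
      have c1 := l3 s hs
      rw [card_product, ← card_rows] at c1
      push_cast at c1
      linarith
    have b2 := sum_le_sum b1
    rw [sum_const, nsmul_eq_mul] at b2
    have b3 : (L.card : ℝ) ≤ u := by exact_mod_cast l1
    have b4 : 0 ≤ 4 * η * (A.card * S.card) := by
      rcases η0 with h | h
      · positivity
      · have c1 := congrArg card h
        rw [card_product, card_empty] at c1
        have c2 : (A.card : ℝ) * S.card = 0 := by exact_mod_cast c1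
        rw [c2, mul_zero]
    have b5 := mul_le_mul_of_nonneg_right b3 b4
    linarith
  · intro x hx
    refine ⟨image_subset_image (filter_subset _ _), ?_, ?_⟩
    · rintro y hy ⟨i, c1, c2⟩
      obtain ⟨s, c3, c4⟩ := l2 (x, y) (mem_product.2 ⟨hx, hy⟩)
      obtain ⟨c5, c6⟩ := good x y s c4 i c1
      refine ⟨fib (s, β s y), mem_image_of_mem _ (mem_filter.2 ⟨mem_product.2 ⟨c3, mem_univ _⟩,
        i, c1, ?_⟩), mem_filter.2 ⟨hy, rfl⟩⟩
      have := abs_le.1 c5
      have := abs_le.1 c6
      simp only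
      linarith
    · have b1 : ∑ w ∈ ((L ×ˢ univ).filter (det x)).image fib, (w ∩ S).card ≤
          ∑ z ∈ (L ×ˢ univ).filter (det x), (fib z ∩ S).card :=
        sum_image_le_of_nonneg fun _ _ => Nat.zero_le _
      have b2 : ∀ s ∈ L, ∑ γ : G, (if det x (s, γ) then (fib (s, γ) ∩ S).card else 0) ≤
          (S.filter (Far q e x (r x))).card + (S.filter (fun y => s ∈ bb (x, y))).card := by
        intro s _
        have c1 := card_eq_sum_card_fiberwise (f := β s)
          (s := S.filter (fun y => det x (s, β s y))) (t := univ) (fun y _ => mem_univ _)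
        calc _ ≤ ∑ γ : G, ((S.filter (fun y => det x (s, β s y))).filter
              (fun y => β s y = γ)).card := by
              apply sum_le_sum
              intro γ _
              split_ifs with hd
              · apply card_le_card
                intro y hy
                obtain ⟨d1, d2⟩ := mem_filter.1 (mem_inter.1 hy).1
                simp only at d2
                exact mem_filter.2 ⟨mem_filter.2 ⟨d1, by rw [d2]; exact hd⟩, d2⟩
              · exact Nat.zero_le _
          _ = _ := c1.symm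
          _ ≤ _ := by
              refine le_trans (card_le_card ?_) (card_union_le _ _)
              intro y hy
              obtain ⟨d1, i, d2, d3⟩ := mem_filter.1 hy
              by_cases hb : s ∈ bb (x, y)
              · exact mem_union_right _ (mem_filter.2 ⟨d1, hb⟩)
              · obtain ⟨d4, d5⟩ := good x y s hb i d2
                refine mem_union_left _ (mem_filter.2 ⟨d1, i, d2, lt_abs.2 (Or.inl ?_)⟩)
                have := abs_le.1 d4
                have := abs_le.1 d5
                simp only at d3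
                linarith
      have b3 := sum_le_sum b2
      rw [sum_add_distrib, sum_const, smul_eq_mul] at b3
      rw [sum_filter, sum_product] at b1
      exact b1.trans (b3.trans (Nat.add_le_add_right (Nat.mul_le_mul_right _ l1) _))

end Pool.Agent.P.MP_a54059_lc.MA
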