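import Pool.Agent.P.MP_a54059_lc.MA.Hyp

/-!
The hypotheses of the structure theorem hold for conjunctions of two-sided one-way tests.
-/

namespace Pool.Agent.P.MP_a54059_lc.MA

open Finset Pool.Agent.P.MP_a54059_lc.EX

variable {X Y : Type}

/-- All tests of query `j` accept with probability at least `c`. -/
def Lev (c : ℝ) (q : ℕ) (e : ℕ → ℕ → X → Y → ℝ) (j : ℕ) (x : X) (y : Y) : Prop :=
  ∀ i < q, c ≤ e j i x y

/-- All tests of query `j` accept with probability more than one third. -/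
def Ye (q : ℕ) (e : ℕ → ℕ → X → Y → ℝ) (j : ℕ) (x : X) (y : Y) : Prop :=
  ∀ i < q, 1 / 3 < e j i x y

theorem hj_of {p p0 κ K q : ℕ} {e : ℕ → ℕ → X → Y → ℝ} (h1 : 2 * κ + 1 ≤ p) (h2 : p0 + 2 ≤ p)
    (hA : ∀ j < K, ∀ t, 1 ≤ t → Sk (κ * t) (2 ^ p0 / 2 ^ t) q (e j)) :
    HJ p K (Lev (1 / 2) q e) (Ye q e) := by
  classical
  intro t ht B A hne j hj
  obtain ⟨cls, bd, c1, c2, c3⟩ := hp_one (hA j hj (t + p0 + 2) (by omega)) B A
  obtain ⟨A1, a1, a2, a3⟩ := markov2 A (fun x => (bd x : ℝ)) (fun x => Nat.cast_nonneg _)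
    (B.card / 2 ^ (t + 1)) (by positivity) (c2.trans (le_of_eq (by
      simp only [pow_add]
      field_simp)))
  have ne1 : A1.Nonempty := by
    rw [← card_pos]
    have := hne.card_pos
    omega
  obtain ⟨x0, b1, b2⟩ := popular A1 ne1 cls (2 ^ (κ * (t + p0 + 2))) (by
    refine (card_le_card (t := range _) ?_).trans (card_range _).le
    intro b hb
    obtain ⟨x, -, rfl⟩ := mem_image.1 hb
    exact mem_range.2 (c1 x))
  refine ⟨x0, a1 b1, _, (filter_subset (fun x' => cls x' = cls x0) A1).trans a1, ?_, ?_⟩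
  · calc _ ≤ 2 * (2 ^ (κ * (t + p0 + 2)) * (A1.filter (fun x' => cls x' = cls x0)).card) :=
          a2.trans (Nat.mul_le_mul_left _ b2)
      _ = 2 ^ (κ * (t + p0 + 2) + 1) * (A1.filter (fun x' => cls x' = cls x0)).card := by ring
      _ ≤ _ := by
          apply Nat.mul_le_mul_right
          apply Nat.pow_le_pow_right (by norm_num)
          calc _ ≤ κ * (2 * t) + t := by gcongr <;> omega
            _ = (2 * κ + 1) * t := by ring
            _ ≤ _ := Nat.mul_le_mul_right _ h1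
  · intro x hx
    obtain ⟨d1, d2⟩ := mem_filter.1 hx
    have d3 : (B.filter (fun y => Lev (1 / 2) q e j x0 y ∧ ¬ Ye q e j x y)).card ≤
        bd x + bd x0 := by
      refine le_trans (card_le_card ?_) (c3 x x0 d2)
      intro y hy
      obtain ⟨f1, f2, f3⟩ := mem_filter.1 hy
      simp only [Ye, not_forall, not_lt] at f3
      obtain ⟨i, f4, f5⟩ := f3
      refine mem_filter.2 ⟨f1, i, f4, lt_abs.2 (Or.inr ?_)⟩
      have := f2 i f4
      linarith
    have d4 := a3 x d1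
    have d5 := a3 x0 b1
    rw [le_div_iff₀ (by positivity), pow_succ] at d4 d5
    have d6 : (2 : ℝ) ^ t * (bd x + bd x0 : ℕ) ≤ B.card := by
      push_cast
      linarith
    exact (Nat.mul_le_mul_left _ d3).trans (by exact_mod_cast d6)

theorem hc_of [DecidableEq Y] [Fintype X] [Fintype Y] [Nonempty X] {p p0 κ K q u : ℕ}
    {e : ℕ → ℕ → X → Y → ℝ} (h1 : 2 * κ + 1 ≤ p) (h2 : 3 * p0 + 4 ≤ p) (hK : K ≤ 2 ^ p0)
    (hu : u ≤ 2 ^ p0) (hn : Fintype.card X * Fintype.card Y < 2 ^ u)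
    (hA : ∀ j < K, ∀ t, 1 ≤ t → Sk (κ * t) (2 ^ p0 / 2 ^ t) q (e j))
    (hB : ∀ j < K, ∀ t, 1 ≤ t → Sk (κ * t) (2 ^ p0 / 2 ^ t) q (fun i y x => e j i x y)) :
    HC p K (Lev (2 / 3) q e) (Lev (1 / 2) q e) := by
  classical
  intro t ht S A NF
  obtain ⟨m, hm⟩ : ∃ m, m = κ * (t + 4 + 3 * p0) := ⟨_, rfl⟩
  obtain ⟨η, hη⟩ : ∃ η : ℝ, η = 2 ^ p0 / 2 ^ (t + 4 + 3 * p0) := ⟨_, rfl⟩
  have η0 : 0 ≤ η := by rw [hη]; positivity
  have hK' : (K : ℝ) ≤ 2 ^ p0 := by exact_mod_cast hK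
  have hu' : (u : ℝ) ≤ 2 ^ p0 := by exact_mod_cast hu
  have m1 : 2 * p0 + m ≤ p * t := by
    calc _ ≤ t + κ * (2 * t) := by rw [hm]; gcongr <;> omega
      _ = (2 * κ + 1) * t := by ring
      _ ≤ _ := Nat.mul_le_mul_right _ h1
  have ex1 : ∀ j, ∃ (cls bd : X → ℕ), j < K → (∀ x, cls x < 2 ^ m) ∧
      ∑ x ∈ A, (bd x : ℝ) ≤ η * (A.card * S.card) ∧
      ∀ x x', cls x = cls x' → (S.filter (Far q (e j) x x')).card ≤ bd x + bd x' := by
    intro j
    by_cases hj : j < K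
    · obtain ⟨cls, bd, c⟩ := hp_one (hA j hj (t + 4 + 3 * p0) (by omega)) S A
      exact ⟨cls, bd, fun _ => by rw [hm, hη]; exact c⟩
    · exact ⟨fun _ => 0, fun _ => 0, fun h => absurd h hj⟩
  choose cls bd c1 using ex1
  obtain ⟨A1, a1, a2, a3⟩ := markov2 A (fun x => ∑ j ∈ range K, (bd j x : ℝ))
    (fun x => sum_nonneg fun _ _ => Nat.cast_nonneg _) (S.card / 2 ^ (t + 2 + p0))
    (by positivity) (by
      rw [sum_comm]
      calc _ ≤ ∑ _j ∈ range K, η * (A.card * S.card) :=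
            sum_le_sum fun j hj => (c1 j (mem_range.1 hj)).2.1
        _ = K * (η * (A.card * S.card)) := by rw [sum_const, card_range, nsmul_eq_mul]
        _ ≤ 2 ^ p0 * (η * (A.card * S.card)) := by gcongr
        _ = S.card / 2 ^ (t + 2 + p0) / 2 * A.card / 2 := by
            rw [hη, show 3 * p0 = p0 + p0 + p0 by ring]
            simp only [pow_add]
            field_simp
        _ ≤ _ := half_le_self (by positivity))
  have a4 : ∀ x ∈ A1, ∀ j < K, (bd j x : ℝ) ≤ S.card / 2 ^ (t + 2 + p0) := fun x hx j hj =>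
    (single_le_sum (f := fun j => (bd j x : ℝ)) (fun _ _ => Nat.cast_nonneg _)
      (mem_range.2 hj)).trans (a3 x hx)
  have ex2 : ∀ j γ, ∃ x0 : X, ∀ x ∈ A1, NF j x → cls j x = γ →
      x0 ∈ A1 ∧ NF j x0 ∧ cls j x0 = γ := by
    intro j γ
    by_cases h : ∃ x ∈ A1, NF j x ∧ cls j x = γ
    · obtain ⟨x, b⟩ := h
      exact ⟨x, fun _ _ _ _ => b⟩
    · exact ⟨Classical.arbitrary X, fun x b1 b2 b3 => absurd ⟨x, b1, b2, b3⟩ h⟩
  choose rep r1 using ex2
  have hu1 : A1.card * S.card < 2 ^ u :=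
    lt_of_le_of_lt (Nat.mul_le_mul (card_le_univ _) (card_le_univ _)) hn
  have η1 : η ≤ 1 / 8 := by
    rw [hη, div_le_div_iff₀ (by positivity) (by norm_num), one_mul]
    calc (2 : ℝ) ^ p0 * 8 = 2 ^ (p0 + 3) := by rw [pow_add]; norm_num
      _ ≤ _ := pow_le_pow_right₀ (by norm_num) (by omega)
  have ex3 : ∀ j, ∃ (W : Finset (Finset Y)) (C : X → Finset (Finset Y)) (bd : X → ℕ), j < K →
      W.card ≤ u * 2 ^ m ∧ (∀ y, (W.filter (fun s => y ∈ s)).card ≤ u) ∧
      ∑ x ∈ A1, (bd x : ℝ) ≤ 4 * η * u * (A1.card * S.card) ∧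
      ∀ x ∈ A1, C x ⊆ W ∧ (∀ y ∈ S, Sep q (e j) x (rep j (cls j x)) y → ∃ w ∈ C x, y ∈ w) ∧
        ∑ w ∈ C x, (w ∩ S).card ≤
          u * (S.filter (Far q (e j) x (rep j (cls j x)))).card + bd x := by
    intro j
    by_cases hj : j < K
    · obtain ⟨W, C, bd, c⟩ := hd_one (hB j hj (t + 4 + 3 * p0) (by omega)) (hη ▸ η1) S A1 hu1
        (fun x => rep j (cls j x))
      exact ⟨W, C, bd, fun _ => by rw [hm, hη]; exact c⟩
    · exact ⟨∅, fun _ => ∅, fun _ => 0, fun h => absurd h hj⟩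
  choose W C bd' c2 using ex3
  obtain ⟨A2, b1, b2, b3⟩ := markov2 A1 (fun x => ∑ j ∈ range K, (bd' j x : ℝ))
    (fun x => sum_nonneg fun _ _ => Nat.cast_nonneg _) (S.card / 2 ^ (t + 1))
    (by positivity) (by
      rw [sum_comm]
      calc _ ≤ ∑ _j ∈ range K, 4 * η * u * (A1.card * S.card) :=
            sum_le_sum fun j hj => (c2 j (mem_range.1 hj)).2.2.1
        _ = K * (4 * η * u * (A1.card * S.card)) := by rw [sum_const, card_range, nsmul_eq_mul]
        _ ≤ 2 ^ p0 * (4 * η * 2 ^ p0 * (A1.card * S.card)) := by gcongr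
        _ = _ := by
            rw [hη, show 3 * p0 = p0 + p0 + p0 by ring]
            simp only [pow_add]
            field_simp
            ring)
  have b4 : ∀ x ∈ A2, ∀ j < K, (bd' j x : ℝ) ≤ S.card / 2 ^ (t + 1) := fun x hx j hj =>
    (single_le_sum (f := fun j => (bd' j x : ℝ)) (fun _ _ => Nat.cast_nonneg _)
      (mem_range.2 hj)).trans (b3 x hx)
  refine ⟨A2, b1.trans a1, by omega, fun n => (n / 2 ^ m, rep (n / 2 ^ m) (n % 2 ^ m)),
    (range K).biUnion W, ?_, ?_, ?_⟩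
  · calc _ ≤ ∑ j ∈ range K, (W j).card := card_biUnion_le
      _ ≤ ∑ _j ∈ range K, u * 2 ^ m := sum_le_sum fun j hj => (c2 j (mem_range.1 hj)).1
      _ = K * (u * 2 ^ m) := by rw [sum_const, card_range, smul_eq_mul]
      _ ≤ 2 ^ p0 * (2 ^ p0 * 2 ^ m) := by gcongr
      _ = 2 ^ (2 * p0 + m) := by ring
      _ ≤ _ := Nat.pow_le_pow_right (by norm_num) m1
  · intro y
    rw [filter_biUnion]
    calc _ ≤ ∑ j ∈ range K, ((W j).filter (fun s => y ∈ s)).card := card_biUnion_le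
      _ ≤ ∑ _j ∈ range K, u := sum_le_sum fun j hj => (c2 j (mem_range.1 hj)).2.1 y
      _ = K * u := by rw [sum_const, card_range, smul_eq_mul]
      _ ≤ 2 ^ p0 * 2 ^ p0 := by gcongr
      _ = 2 ^ (2 * p0) := by ring
      _ ≤ _ := Nat.pow_le_pow_right (by norm_num) (by omega)
  · intro x hx j hj hn
    have d0 := (c1 j hj).1 x
    have d1 : (2 ^ m * j + cls j x) / 2 ^ m = j := by
      rw [Nat.mul_add_div (Nat.two_pow_pos m), Nat.div_eq_of_lt d0, add_zero]
    have d2 : (2 ^ m * j + cls j x) % 2 ^ m = cls j x := by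
      rw [Nat.mul_add_mod, Nat.mod_eq_of_lt d0]
    obtain ⟨d3, d4, d5⟩ := r1 j _ x (b1 hx) hn rfl
    obtain ⟨d6, d7, d8⟩ := (c2 j hj).2.2.2 x (b1 hx)
    refine ⟨2 ^ m * j + cls j x, ?_, by simp only [d1, d2]; exact d4, C j x,
      d6.trans (subset_biUnion_of_mem W (mem_range.2 hj)), ?_, ?_⟩
    · calc _ < 2 ^ m * (j + 1) := by rw [mul_add, mul_one]; omega
        _ ≤ 2 ^ m * 2 ^ p0 := Nat.mul_le_mul_left _ (by omega)
        _ ≤ _ := by
            rw [← pow_add]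
            exact Nat.pow_le_pow_right (by norm_num) (by omega)
    · intro y hy hh
      simp only [d1, d2]
      by_cases hmid : Lev (1 / 2) q e j (rep j (cls j x)) y
      · exact Or.inl hmid
      · right
        simp only [Lev, not_forall, not_le] at hmid
        obtain ⟨i, f1, f2⟩ := hmid
        refine d7 y hy ⟨i, f1, ?_⟩
        have := hh i f1
        linarith
    · have f1 := (c1 j hj).2.2 x _ d5.symm
      have f2 := a4 x (b1 hx) j hj
      have f3 := a4 _ d3 j hj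
      have f4 := b4 x hx j hj
      have f5 : ∑ w ∈ C j x, (w ∩ S).card ≤
          2 ^ p0 * (bd j x + bd j (rep j (cls j x))) + bd' j x :=
        d8.trans (Nat.add_le_add_right (Nat.mul_le_mul hu f1) _)
      rw [le_div_iff₀ (by positivity)] at f2 f3 f4
      simp only [pow_add] at f2 f3 f4
      have f6 : (2 : ℝ) ^ t * (2 ^ p0 * (bd j x + bd j (rep j (cls j x))) + bd' j x : ℕ) ≤
          S.card := by
        push_cast
        linarith
      exact (Nat.mul_le_mul_left _ f5).trans (by exact_mod_cast f6)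

end Pool.Agent.P.MP_a54059_lc.MA
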