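import Pool.Agent.P.MP_a54059_lc.EX.Restrict

/-!
Restricting to a feasible set while covering a family of cells that are far from feasible,
with an extra family of tokens of bounded multiplicity.
-/

namespace Pool.Agent.P.MP_a54059_lc.MA

open Finset Pool.Agent.P.MP_a54059_lc.EX

variable {Y : Type} [DecidableEq Y]

theorem restrict2 (μ : ℝ) (hμ : 1 ≤ μ) (B : Finset Y) (hB : B.Nonempty)
    (T : Finset (Finset Y × ℕ)) (c : ℕ → Y → Prop) (W : Finset (Finset Y))
    (K L ℓ sh θ g Q Λ ρ : ℕ) (δ δ' D Ψ E τ0 τ : ℝ)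
    (S : Finset Y) (ξ : Finset Y × ℕ → ℕ) (w : Wit μ B T L sh (θ + sh) δ S ξ)
    (hD : ∀ y ∈ B, ((T.filter (fun t => y ∈ t.1)).card : ℝ) ≤ D) (hΨ : ∀ y ∈ B, pot μ T y ≤ Ψ)
    (hg : μ ^ g ≤ 2) (hQ : 8 * K ≤ 2 ^ Q) (hΛ : L + ℓ + 2 ≤ Λ) (hδ : 0 ≤ δ) (hδ' : 0 < δ')
    (hG : 16 * Λ * Q * δ ≤ δ') (hE0 : 0 < E)
    (hE : 2 * Λ * Q * (μ ^ (θ + sh) * Ψ + δ) ≤ E * δ')
    (hW : ∀ y, ((W.filter (fun s => y ∈ s)).card : ℝ) ≤ μ ^ ρ) (hℓ : K * 2 ^ (ρ + g) ≤ 2 ^ ℓ)
    (hτ1 : 2 * (2 ^ sh * τ0) ≤ τ) (hτ2 : (2 + 16 * D * Λ) / 2 ^ g ≤ τ) :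
    ∃ S' ⊆ S, ∃ U : Finset (Finset Y × ℕ), S.card ≤ 2 * S'.card ∧
      U.card ≤ T.card * (1 + Λ) + (W.card + 1) ∧
      (∀ u ∈ U, (∃ t ∈ T, u.2 ≤ t.2 + sh) ∨ u.2 < Λ ∨ u.2 = ρ) ∧
      (∀ y ∈ S', pot μ U y ≤ μ ^ θ * Ψ + δ + 4 * E + 2) ∧
      (∀ c, Cov B T τ0 c → Cov S' U τ c) ∧ (∀ s ∈ W, (s, ρ) ∈ U) ∧
      ∀ n < K, ¬ Feas μ B T (L + ℓ) (sh + g) (θ + sh + g) δ' (c n) → Cov S' U τ (c n) := by
  classical
  have hμ0 : 0 < μ := by linarith
  have hBp : (0 : ℝ) < B.card := by exact_mod_cast hB.card_pos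
  have hD0 : 0 ≤ D := by
    obtain ⟨y, hy⟩ := hB
    exact le_trans (Nat.cast_nonneg _) (hD y hy)
  choose R P r1 r2 r3 r4 r5 using fun (n : ℕ) =>
    cover μ hμ0 B hB T (L + ℓ) (sh + g) (θ + sh + g) δ' D hD (c n)
  set I := (T ×ˢ range Λ).filter (fun z => θ + sh + g < z.2) with hI
  set J : ℕ → Y → Finset ((Finset Y × ℕ) × ℕ) := fun n y =>
    (P n).filter (fun z => y ∈ z.1.1 ∧ θ + sh + g < z.2) with hJ
  obtain ⟨Z, z1, S', s1, s2, s3⟩ := select S I (fun z => Q * (μ ^ z.2 / μ ^ z.1.2) / δ')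
    (fun z => by positivity) (pen μ E g ξ) (pen_nonneg hμ0 hE0 g ξ) K Q J
    (fun j y => δ' < ∑ z ∈ J j y, μ ^ z.2 / μ ^ z.1.2)
    (by
      intro j _ y _ ha
      constructor
      · intro z hz
        obtain ⟨a1, -, a2⟩ := mem_filter.1 hz
        obtain ⟨a3, a4⟩ := r3 _ z a1
        exact mem_filter.2 ⟨mem_product.2 ⟨a3, mem_range.2 (by omega)⟩, a2⟩
      · rw [← sum_div, ← mul_sum, le_div_iff₀ hδ']
        exact mul_le_mul_of_nonneg_left ha.le (Nat.cast_nonneg _))
    (by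
      intro y hy
      have a1 := pen_sum hμ w y hy g Q Λ δ' Ψ E (hΨ y (w.sub hy)) hg hδ' hG hE0 hE
      have a2 : (K : ℝ) / 2 ^ Q ≤ 1 / 8 := by
        have b1 : (8 * K : ℝ) ≤ 2 ^ Q := by exact_mod_cast hQ
        rw [div_le_iff₀ (by positivity)]
        linarith
      linarith)
  have hS' : (0 : ℝ) ≤ S'.card := Nat.cast_nonneg _
  have zT : ∀ z ∈ Z, z.1 ∈ T ∧ z.2 < Λ := fun z hz => by
    obtain ⟨a1, a2⟩ := mem_product.1 (mem_filter.1 (z1 hz)).1
    exact ⟨a1, mem_range.1 a2⟩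
  have viol : ∀ y ∈ S', ∀ z ∈ Z, y ∈ z.1.1 → ξ z.1 + g ≤ z.2 := by
    intro y hy z hz h
    by_contra hc
    have a1 := single_le_sum (f := fun z => pen μ E g ξ z y)
      (fun z _ => pen_nonneg hμ0 hE0 g ξ z y) hz
    have a2 := (s3 y hy).2
    simp only [pen, h, not_le.1 hc, if_true] at a1
    have a3 : 0 ≤ μ ^ (ξ z.1 + g) / μ ^ z.2 / (4 * E) := by positivity
    simp only [pen] at a2
    linarith
  set old : Finset Y × ℕ → Finset Y × ℕ := fun t => (t.1, t.2 + sh - ξ t) with hold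
  set cop : (Finset Y × ℕ) × ℕ → Finset Y × ℕ := fun z => (z.1.1, z.2 - g - ξ z.1) with hcop
  set res : Finset Y → Finset Y × ℕ := fun s => (s, ρ) with hres
  set Rs : Finset Y := (range K).biUnion R with hRs
  set N := insert Rs W with hN
  have u1 : ∀ t ∈ T, old t ∈ T.image old ∪ Z.image cop ∪ N.image res := fun t ht =>
    mem_union_left _ (mem_union_left _ (mem_image_of_mem _ ht))
  have u2 : ∀ z ∈ Z, cop z ∈ T.image old ∪ Z.image cop ∪ N.image res := fun t ht =>
    mem_union_left _ (mem_union_right _ (mem_image_of_mem _ ht))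
  have u3 : ∀ i ∈ N, res i ∈ T.image old ∪ Z.image cop ∪ N.image res := fun t ht =>
    mem_union_right _ (mem_image_of_mem _ ht)
  have t1 : ∀ t ∈ T, mass S' (old t) * B.card ≤ 2 * mass B (t.1, t.2 + sh) * S'.card :=
    fun t ht => transfer w s1 s2 t ht _ fun y hy h => w.slack y (s1 hy) t ht h
  have t2 : ∀ z ∈ Z, mass S' (cop z) * B.card ≤ 2 * mass B (z.1.1, z.2 - g) * S'.card :=
    fun z hz => transfer w s1 s2 z.1 (zT z hz).1 _ fun y hy h => by
      have := viol y hy z hz h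
      omega
  refine ⟨S', s1, T.image old ∪ Z.image cop ∪ N.image res, s2, ?_, ?_, ?_, ?_,
    fun s hs => u3 s (mem_insert_of_mem hs), ?_⟩
  · have a1 : (T.image old).card ≤ T.card := card_image_le
    have a2 : (Z.image cop).card ≤ T.card * Λ := by
      refine card_image_le.trans ((card_le_card (z1.trans (filter_subset _ _))).trans ?_)
      rw [card_product, card_range]
    have a3 : (N.image res).card ≤ W.card + 1 := card_image_le.trans (card_insert_le _ _)
    have a4 := card_union_le (T.image old ∪ Z.image cop) (N.image res)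
    have a5 := card_union_le (T.image old) (Z.image cop)
    rw [mul_add, mul_one]
    omega
  · intro u hu
    rcases mem_union.1 hu with hu | hu
    · rcases mem_union.1 hu with hu | hu
      · obtain ⟨t, ht, rfl⟩ := mem_image.1 hu
        exact Or.inl ⟨t, ht, Nat.sub_le _ _⟩
      · obtain ⟨z, hz, rfl⟩ := mem_image.1 hu
        have := (zT z hz).2
        exact Or.inr (Or.inl (by simp only [hcop]; omega))
    · obtain ⟨i, -, rfl⟩ := mem_image.1 hu
      exact Or.inr (Or.inr rfl)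
  · intro y hy
    have a1 : pot μ (T.image old) y ≤ μ ^ θ * Ψ + δ := by
      refine (pot_image_le μ hμ0 T old y).trans ?_
      have b1 : ∑ t ∈ T with y ∈ (old t).1, 1 / μ ^ (old t).2 =
          (∑ t ∈ T with y ∈ t.1, μ ^ ξ t / μ ^ t.2) / μ ^ sh := by
        rw [sum_div]
        apply sum_congr rfl
        intro t ht
        obtain ⟨k, hk⟩ := Nat.exists_eq_add_of_le
          (w.slack y (s1 hy) t (mem_filter.1 ht).1 (mem_filter.1 ht).2)
        simp only [hold]
        rw [div_div, ← pow_add, hk, Nat.add_sub_cancel_left, pow_add]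
        field_simp
      have b2 := (load_le hμ w y (s1 hy)).trans (add_le_add_left
        (mul_le_mul_of_nonneg_left (hΨ y (w.sub (s1 hy)))
          (show 0 ≤ μ ^ (θ + sh) by positivity)) δ)
      have b3 : δ ≤ δ * μ ^ sh := le_mul_of_one_le_right hδ (one_le_pow₀ hμ)
      rw [b1, div_le_iff₀ (by positivity)]
      rw [pow_add] at b2
      linarith
    have a2 : pot μ (Z.image cop) y ≤ 4 * E := by
      refine (pot_image_le μ hμ0 Z cop y).trans ?_
      have b1 : ∑ z ∈ Z with y ∈ (cop z).1, 1 / μ ^ (cop z).2 ≤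
          ∑ z ∈ Z, 4 * E * pen μ E g ξ z y := by
        rw [sum_filter]
        apply sum_le_sum
        intro z hz
        by_cases h : y ∈ z.1.1
        · obtain ⟨k, hk⟩ := Nat.exists_eq_add_of_le (viol y hy z hz h)
          have e : z.2 - g - ξ z.1 = k := by omega
          simp only [hcop, pen, h, if_true, e]
          rw [if_neg (by omega), zero_add, hk, pow_add μ _ k]
          apply le_of_eq
          field_simp
        · simp only [hcop, pen, h, if_false, mul_zero, le_refl]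
      rw [← mul_sum] at b1
      have b2 := mul_le_mul_of_nonneg_left (s3 y hy).2.le (show 0 ≤ 4 * E by positivity)
      linarith
    have a3 : pot μ (N.image res) y ≤ 2 := by
      refine (pot_image_le μ hμ0 N res y).trans ?_
      have b1 : (N.filter (fun i => y ∈ (res i).1)).card ≤ (W.filter (fun s => y ∈ s)).card + 1 := by
        refine le_trans (card_le_card ?_) (card_insert_le Rs _)
        intro i hi
        obtain ⟨c1, c2⟩ := mem_filter.1 hi
        rcases mem_insert.1 c1 with c3 | c3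
        · exact mem_insert.2 (Or.inl c3)
        · exact mem_insert_of_mem (mem_filter.2 ⟨c3, c2⟩)
      have b2 : ((N.filter (fun i => y ∈ (res i).1)).card : ℝ) ≤ 2 * μ ^ ρ := by
        have c1 : ((N.filter (fun i => y ∈ (res i).1)).card : ℝ) ≤
            (W.filter (fun s => y ∈ s)).card + 1 := by exact_mod_cast b1
        have c2 : (1 : ℝ) ≤ μ ^ ρ := one_le_pow₀ hμ
        have c3 := hW y
        linarith
      simp only [hres] at b2 ⊢
      rw [sum_const, nsmul_eq_mul, mul_one_div, div_le_iff₀ (by positivity)]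
      exact b2
    have a4 := pot_union_le μ hμ0 (T.image old ∪ Z.image cop) (N.image res) y
    have a5 := pot_union_le μ hμ0 (T.image old) (Z.image cop) y
    linarith
  · rintro c ⟨C, c1, c2, c3⟩
    refine cov_family C old (fun t ht => u1 t (c1 ht))
      (fun y hy h => c2 y (w.sub (s1 hy)) h) ?_
    refine (transfer_sum C (fun t => mass B (t.1, t.2 + sh)) _ _ _ (2 ^ sh * τ0) hBp hS'
      (fun t ht => t1 t (c1 ht)) ?_).trans (mul_le_mul_of_nonneg_right hτ1 hS')
    calc _ = ∑ t ∈ C, 2 ^ sh * mass B t := by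
          apply sum_congr rfl
          intro t _
          simp only [mass, pow_add]
          ring
      _ ≤ _ := by
          rw [← mul_sum, mul_assoc]
          exact mul_le_mul_of_nonneg_left c3 (by positivity)
  · intro j hj hf
    have sP : ∀ (C : Finset ((Finset Y × ℕ) × ℕ)) (e : (Finset Y × ℕ) × ℕ → ℕ), C ⊆ P j →
        (∀ z ∈ C, e z + g ≤ z.2) →
        ∑ z ∈ C, mass B (z.1.1, e z) ≤ 4 * D * Λ / 2 ^ g * B.card := by
      intro C e c1 c2
      have b1 : ((L + ℓ : ℕ) : ℝ) + 1 ≤ Λ := by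
        have : L + ℓ + 1 ≤ Λ := by omega
        exact_mod_cast this
      calc _ ≤ ∑ z ∈ C, 1 / 2 ^ g * mass B (z.1.1, z.2) :=
            sum_le_sum fun z hz => mass_shift B _ _ _ g (c2 z hz)
        _ ≤ ∑ z ∈ P j, 1 / 2 ^ g * mass B (z.1.1, z.2) :=
            sum_le_sum_of_subset_of_nonneg c1 fun z _ _ => by
              have := mass_nonneg B (z.1.1, z.2)
              positivity
        _ ≤ 1 / 2 ^ g * (4 * D * (((L + ℓ : ℕ) : ℝ) + 1) * B.card) := by
            rw [← mul_sum]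
            exact mul_le_mul_of_nonneg_left (r4 j) (by positivity)
        _ ≤ 1 / 2 ^ g * (4 * D * Λ * B.card) := by gcongr
        _ = _ := by ring
    have k1 : Cov S' (T.image old ∪ Z.image cop ∪ N.image res) (2 / 2 ^ g)
        (fun y => y ∈ Rs) := by
      refine cov_family {Rs} res ?_ (fun y _ h => ⟨_, mem_singleton_self _, h⟩) ?_
      · intro i hi
        rw [mem_singleton.1 hi]
        exact u3 _ (mem_insert_self _ _)
      · rw [sum_singleton]
        have b0 : ∀ n ∈ range K, 2 ^ ℓ * (R n).card ≤ 2 * S'.card := by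
          intro n _
          have c1 : 2 ^ L * (2 ^ ℓ * (R n).card) ≤ 2 ^ L * (2 * S'.card) := by
            calc _ = 2 ^ (L + ℓ) * (R n).card := by rw [pow_add, mul_assoc]
              _ ≤ B.card := (r2 n).le
              _ ≤ _ := w.big.trans (Nat.mul_le_mul_left _ s2)
          exact Nat.le_of_mul_le_mul_left c1 (Nat.two_pow_pos L)
        have b1 : 2 ^ ℓ * (2 ^ (ρ + g) * (Rs ∩ S').card) ≤ 2 ^ ℓ * (2 * S'.card) := by
          have c1 : (Rs ∩ S').card ≤ ∑ n ∈ range K, (R n).card :=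
            (card_le_card inter_subset_left).trans card_biUnion_le
          have c2 := sum_le_sum b0
          rw [← mul_sum, sum_const, card_range, smul_eq_mul] at c2
          calc _ = 2 ^ (ρ + g) * (2 ^ ℓ * (Rs ∩ S').card) := by ring
            _ ≤ 2 ^ (ρ + g) * (K * (2 * S'.card)) :=
                Nat.mul_le_mul_left _ ((Nat.mul_le_mul_left _ c1).trans c2)
            _ = K * 2 ^ (ρ + g) * (2 * S'.card) := by ring
            _ ≤ _ := Nat.mul_le_mul_right _ hℓ
        have b2 := Nat.le_of_mul_le_mul_left b1 (Nat.two_pow_pos ℓ)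
        have b3 : (2 : ℝ) ^ (ρ + g) * (Rs ∩ S').card ≤ 2 * S'.card := by
          exact_mod_cast b2
        simp only [hres, mass]
        rw [div_mul_eq_mul_div, le_div_iff₀ (by positivity)]
        rw [pow_add] at b3
        linarith
    have k2 : Cov S' (T.image old ∪ Z.image cop ∪ N.image res) (2 * (4 * D * Λ / 2 ^ g))
        (fun y => ∃ z ∈ P j, y ∈ z.1.1 ∧ z.1.2 + (sh + g) < z.2) := by
      refine cov_family ((P j).filter (fun z => z.1.2 + (sh + g) < z.2)) (fun z => old z.1)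
        (fun z hz => u1 _ (r3 j z (mem_filter.1 hz).1).1) ?_ ?_
      · rintro y _ ⟨z, a1, a2, a3⟩
        exact ⟨z, mem_filter.2 ⟨a1, a3⟩, a2⟩
      · refine transfer_sum _ (fun z => mass B (z.1.1, z.1.2 + sh)) _ _ _ _ hBp hS'
          (fun z hz => t1 _ (r3 j z (mem_filter.1 hz).1).1)
          (sP _ (fun z => z.1.2 + sh) (filter_subset _ _) fun z hz => ?_)
        have := (mem_filter.1 hz).2
        omega
    have k3 : Cov S' (T.image old ∪ Z.image cop ∪ N.image res) (2 * (4 * D * Λ / 2 ^ g))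
        (fun y => ∃ z ∈ Z ∩ P j, y ∈ z.1.1) := by
      refine cov_family (Z ∩ P j) cop (fun z hz => u2 _ (mem_inter.1 hz).1)
        (fun y _ h => h) ?_
      refine transfer_sum _ (fun z => mass B (z.1.1, z.2 - g)) _ _ _ _ hBp hS'
        (fun z hz => t2 _ (mem_inter.1 hz).1)
        (sP _ (fun z => z.2 - g) inter_subset_right fun z hz => ?_)
      have := (mem_filter.1 (z1 (mem_inter.1 hz).1)).2
      omega
    refine cov_union k1 (cov_union k2 k3 (fun y _ h => h) le_rfl) ?_ (le_trans (le_of_eq ?_) hτ2)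
    · intro y hy h
      rcases r5 j hf y (w.sub (s1 hy)) h with b | b | b
      · exact Or.inl (mem_biUnion.2 ⟨j, mem_range.2 hj, b⟩)
      · exact Or.inr (Or.inl b)
      · obtain ⟨z, c1, c2⟩ := (s3 y hy).1 j hj b
        obtain ⟨c3, c4, -⟩ := mem_filter.1 c2
        exact Or.inr (Or.inr ⟨z, mem_inter.2 ⟨c1, c3⟩, c4⟩)
    · ring

end Pool.Agent.P.MP_a54059_lc.MA
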