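import Pool.Agent.P.MP_a54059_lc.MA.Defs
import Pool.Agent.P.MP_a54059_lc.EX.Basic

/-!
Sampling: a one-way test is estimated from a short message, with exponentially small error.
-/

namespace Pool.Agent.P.MP_a54059_lc.MA

open Finset Pool.Agent.P.MP_a54059_lc.EX

theorem chernoff {Ω : Type} [Fintype Ω] (V : Ω → ℝ) (h1 : ∀ ω, |V ω| ≤ 1) (h0 : ∑ ω, V ω = 0)
    (ε : ℝ) (e0 : 0 ≤ ε) (e1 : ε ≤ 2) (N : ℕ) :
    ((univ.filter fun s : Fin N → Ω => ε * N ≤ ∑ l, V (s l)).card : ℝ) ≤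
      Real.exp (-(ε ^ 2 / 4 * N)) * Fintype.card (Fin N → Ω) := by
  classical
  have a1 : ∑ ω, Real.exp (ε / 2 * V ω) ≤ Fintype.card Ω * Real.exp (ε ^ 2 / 4) := by
    have b1 : ∀ ω, Real.exp (ε / 2 * V ω) ≤ 1 + ε / 2 * V ω + ε ^ 2 / 4 := by
      intro ω
      have c0 := h1 ω
      have c1 : |ε / 2 * V ω| ≤ 1 := by
        rw [abs_mul, abs_of_nonneg (by linarith : 0 ≤ ε / 2)]
        nlinarith [abs_nonneg (V ω)]
      have c2 := (abs_le.1 (Real.abs_exp_sub_one_sub_id_le c1)).2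
      have c3 : V ω ^ 2 ≤ 1 := by
        rw [← sq_abs]
        nlinarith [abs_nonneg (V ω)]
      nlinarith [sq_nonneg ε]
    calc _ ≤ ∑ ω, (1 + ε / 2 * V ω + ε ^ 2 / 4) := sum_le_sum fun ω _ => b1 ω
      _ = Fintype.card Ω * (ε ^ 2 / 4 + 1) := by
          rw [sum_add_distrib, sum_add_distrib, ← mul_sum, h0]
          simp only [sum_const, card_univ, nsmul_eq_mul]
          ring
      _ ≤ _ := mul_le_mul_of_nonneg_left (Real.add_one_le_exp _) (Nat.cast_nonneg _)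
  have a2 : ∑ s : Fin N → Ω, Real.exp (ε / 2 * ∑ l, V (s l)) =
      (∑ ω, Real.exp (ε / 2 * V ω)) ^ N := by
    rw [Fintype.sum_pow]
    apply sum_congr rfl
    intro s _
    rw [mul_sum, Real.exp_sum]
  have a3 : ((univ.filter fun s : Fin N → Ω => ε * N ≤ ∑ l, V (s l)).card : ℝ) *
      Real.exp (ε ^ 2 / 2 * N) ≤ ∑ s : Fin N → Ω, Real.exp (ε / 2 * ∑ l, V (s l)) := by
    rw [← nsmul_eq_mul, ← sum_const]
    calc _ ≤ ∑ s ∈ (univ.filter fun s : Fin N → Ω => ε * N ≤ ∑ l, V (s l)),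
          Real.exp (ε / 2 * ∑ l, V (s l)) := by
          apply sum_le_sum
          intro s hs
          apply Real.exp_le_exp.2
          have := mul_le_mul_of_nonneg_left (mem_filter.1 hs).2 (by linarith : 0 ≤ ε / 2)
          linarith
      _ ≤ _ := sum_le_sum_of_subset_of_nonneg (filter_subset _ _)
          fun s _ _ => (Real.exp_pos _).le
  have a4 : (∑ ω, Real.exp (ε / 2 * V ω)) ^ N ≤ (Fintype.card Ω * Real.exp (ε ^ 2 / 4)) ^ N :=
    pow_le_pow_left₀ (sum_nonneg fun ω _ => (Real.exp_pos _).le) a1 N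
  rw [mul_pow, ← Real.exp_nat_mul] at a4
  have a5 : Real.exp (N * (ε ^ 2 / 4)) =
      Real.exp (-(ε ^ 2 / 4 * N)) * Real.exp (ε ^ 2 / 2 * N) := by
    rw [← Real.exp_add]; congr 1; ring
  rw [Fintype.card_fun, Fintype.card_fin]
  push_cast
  apply le_of_mul_le_mul_right _ (Real.exp_pos (ε ^ 2 / 2 * N))
  rw [a5] at a4
  linarith

variable {X Y : Type}

/-- The values `e i x y`, `i < q`, are estimated from an `m`-bit message of the holder of `x`,
with error probability `η`. -/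
def Sk (m : ℕ) (η : ℝ) (q : ℕ) (e : ℕ → X → Y → ℝ) : Prop :=
  ∃ (Ω G : Type) (_ : Fintype Ω) (_ : Fintype G) (α : Ω → X → G) (est : Ω → ℕ → G → Y → ℝ)
    (bad : X → Y → Finset Ω), Nonempty Ω ∧ Fintype.card G ≤ 2 ^ m ∧ ∀ x y,
      ((bad x y).card : ℝ) ≤ η * Fintype.card Ω ∧
      ∀ s, s ∉ bad x y → ∀ i < q, |est s i (α s x) y - e i x y| ≤ 1 / 40

theorem sk_zero (e : ℕ → X → Y → ℝ) : Sk 0 0 0 e :=
  ⟨Unit, Unit, inferInstance, inferInstance, fun _ _ => (), fun _ _ _ _ => 0, fun _ _ => ∅,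
    inferInstance, by simp, by simp⟩

theorem sk_mono {m m' : ℕ} {η η' : ℝ} {q : ℕ} {e : ℕ → X → Y → ℝ} (h : Sk m η q e)
    (hm : m ≤ m') (hη : η ≤ η') : Sk m' η' q e := by
  obtain ⟨Ω, G, i1, i2, α, est, bad, a1, a2, a3⟩ := h
  exact ⟨Ω, G, i1, i2, α, est, bad, a1, a2.trans (Nat.pow_le_pow_right (by norm_num) hm),
    fun x y => ⟨(a3 x y).1.trans (mul_le_mul_of_nonneg_right hη (Nat.cast_nonneg _)),
      (a3 x y).2⟩⟩

theorem sample {m : ℕ} (Z : Fin (m + 1) → Bool) (t : ℕ) (ht : 1 ≤ t) :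
    ∃ bad : Finset (Fin (18000 * t) → Fin (m + 1)),
      (bad.card : ℝ) ≤ 2 / 2 ^ t * Fintype.card (Fin (18000 * t) → Fin (m + 1)) ∧
      ∀ s, s ∉ bad → |(∑ l, if Z (s l) = true then (1 : ℝ) else 0) / (18000 * t : ℕ) -
        ((univ.filter fun ω => Z ω = true).card : ℝ) / (m + 1)| ≤ 3 / 200 := by
  classical
  obtain ⟨π, hπ⟩ : ∃ π : ℝ, π = ((univ.filter fun ω => Z ω = true).card : ℝ) / (m + 1) := ⟨_, rfl⟩
  rw [← hπ]
  have π0 : 0 ≤ π := by rw [hπ]; positivity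
  have π1 : π ≤ 1 := by
    rw [hπ, div_le_one (by positivity)]
    have := card_filter_le (univ : Finset (Fin (m + 1))) (fun ω => Z ω = true)
    rw [card_univ, Fintype.card_fin] at this
    exact_mod_cast this
  set V : Fin (m + 1) → ℝ := fun ω => (if Z ω = true then (1 : ℝ) else 0) - π with hV
  have v1 : ∀ ω, |V ω| ≤ 1 := by
    intro ω
    simp only [hV]
    rw [abs_le]
    split_ifs <;> constructor <;> linarith
  have v0 : ∑ ω, V ω = 0 := by
    simp only [hV]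
    rw [sum_sub_distrib, sum_boole, sum_const, card_univ, Fintype.card_fin, nsmul_eq_mul, hπ]
    push_cast
    field_simp
    ring
  have c1 := chernoff V v1 v0 (3 / 200) (by norm_num) (by norm_num) (18000 * t)
  have c2 := chernoff (fun ω => - V ω) (fun ω => by rw [abs_neg]; exact v1 ω)
    (by rw [sum_neg_distrib, v0, neg_zero]) (3 / 200) (by norm_num) (by norm_num) (18000 * t)
  have c3 : Real.exp (-((3 / 200 : ℝ) ^ 2 / 4 * (18000 * t : ℕ))) ≤ 1 / 2 ^ t := by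
    refine le_trans (Real.exp_le_exp.2 ?_) (exp_neg_le t)
    push_cast
    have : (0 : ℝ) ≤ t := Nat.cast_nonneg _
    linarith
  have hN : (0 : ℝ) < (18000 * t : ℕ) := by
    have : 0 < 18000 * t := by omega
    exact_mod_cast this
  refine ⟨(univ.filter fun s : Fin (18000 * t) → Fin (m + 1) =>
        (3 / 200 : ℝ) * (18000 * t : ℕ) ≤ ∑ l, V (s l)) ∪
      (univ.filter fun s : Fin (18000 * t) → Fin (m + 1) =>
        (3 / 200 : ℝ) * (18000 * t : ℕ) ≤ ∑ l, - V (s l)), ?_, ?_⟩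
  · have c7 := mul_le_mul_of_nonneg_right c3
      (Nat.cast_nonneg (α := ℝ) (Fintype.card (Fin (18000 * t) → Fin (m + 1))))
    have c8 : (2 : ℝ) / 2 ^ t = 1 / 2 ^ t + 1 / 2 ^ t := by ring
    rw [c8, add_mul]
    refine le_trans ?_ (add_le_add (c1.trans c7) (c2.trans c7))
    exact_mod_cast card_union_le _ _
  · intro s hs
    have d2 : ∑ l, V (s l) = (18000 * t : ℕ) *
        ((∑ l, if Z (s l) = true then (1 : ℝ) else 0) / (18000 * t : ℕ) - π) := by
      simp only [hV]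
      rw [sum_sub_distrib, sum_const, card_univ, Fintype.card_fin, nsmul_eq_mul]
      field_simp
    generalize (∑ l, if Z (s l) = true then (1 : ℝ) else 0) / (18000 * t : ℕ) = u at d2 ⊢
    rw [mem_union, mem_filter, mem_filter, sum_neg_distrib, d2, not_or] at hs
    have d3 := not_le.1 (fun h => hs.1 ⟨mem_univ _, h⟩)
    have d4 := not_le.1 (fun h => hs.2 ⟨mem_univ _, h⟩)
    rw [abs_le]
    constructor <;> nlinarith

theorem sk_one {k : ℕ} {P : X → Y → ℝ} (h : OW k P) (t : ℕ) (ht : 1 ≤ t) :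
    Sk (k * (18000 * t)) (2 / 2 ^ t) 1 (fun _ => P) := by
  classical
  obtain ⟨m, a, acc, h⟩ := h
  choose bad b1 b2 using fun x y => sample (fun ω => acc ω (a ω x) y) t ht
  refine ⟨Fin (18000 * t) → Fin (m + 1), Fin (18000 * t) → Fin (2 ^ k), inferInstance,
    inferInstance, fun s x l => a (s l) x,
    fun s _ γ y => (∑ l, if acc (s l) (γ l) y = true then (1 : ℝ) else 0) / (18000 * t : ℕ),
    bad, inferInstance, by simp [pow_mul], fun x y => ⟨b1 x y, ?_⟩⟩
  intro s hs i _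
  obtain ⟨d1, d2⟩ := abs_le.1 (b2 x y s hs)
  obtain ⟨d3, d4⟩ := abs_le.1 (h x y)
  rw [abs_le]
  constructor <;> linarith

theorem sk_succ {m m' : ℕ} {η η' : ℝ} {q : ℕ} {e : ℕ → X → Y → ℝ} (h : Sk m η q e)
    (h' : Sk m' η' 1 (fun _ => e q)) : Sk (m + m') (η + η') (q + 1) e := by
  classical
  obtain ⟨Ω, G, i1, i2, α, est, bad, a1, a2, a3⟩ := h
  obtain ⟨Ω', G', j1, j2, α', est', bad', b1, b2, b3⟩ := h'
  refine ⟨Ω × Ω', G × G', inferInstance, inferInstance, fun s x => (α s.1 x, α' s.2 x),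
    fun s i γ y => if i < q then est s.1 i γ.1 y else est' s.2 0 γ.2 y,
    fun x y => bad x y ×ˢ univ ∪ univ ×ˢ bad' x y, inferInstance, ?_, ?_⟩
  · rw [Fintype.card_prod, pow_add]
    exact Nat.mul_le_mul a2 b2
  · intro x y
    constructor
    · have c2 := card_union_le (bad x y ×ˢ (univ : Finset Ω')) ((univ : Finset Ω) ×ˢ bad' x y)
      rw [card_product, card_product, card_univ, card_univ] at c2
      have c3 := (Nat.cast_le (α := ℝ)).2 c2
      push_cast at c3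
      have c4 := mul_le_mul_of_nonneg_right (a3 x y).1 (Nat.cast_nonneg (α := ℝ) (Fintype.card Ω'))
      have c5 := mul_le_mul_of_nonneg_left (b3 x y).1 (Nat.cast_nonneg (α := ℝ) (Fintype.card Ω))
      rw [Fintype.card_prod]
      push_cast
      linarith
    · intro s hs i hi
      rw [mem_union, not_or] at hs
      by_cases hq : i < q
      · simp only [hq, if_true]
        exact (a3 x y).2 s.1 (fun h => hs.1 (mem_product.2 ⟨h, mem_univ _⟩)) i hq
      · simp only [hq, if_false]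
        rw [show i = q by omega]
        exact (b3 x y).2 s.2 (fun h => hs.2 (mem_product.2 ⟨mem_univ _, h⟩)) 0 (by norm_num)

theorem sk_all {k : ℕ} {e : ℕ → X → Y → ℝ} (t : ℕ) (ht : 1 ≤ t) (q : ℕ)
    (h : ∀ i < q, OW k (e i)) : Sk (18000 * k * q * t) (2 * q / 2 ^ t) q e := by
  induction q with
  | zero => exact sk_mono (sk_zero e) (Nat.zero_le _) (by simp)
  | succ q ih =>
    refine sk_mono (sk_succ (ih fun i hi => h i (by omega)) (sk_one (h q (by omega)) t ht))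
      (le_of_eq (by ring)) (le_of_eq ?_)
    push_cast
    ring

theorem ow_one (k : ℕ) : OW k (fun (_ : X) (_ : Y) => (1 : ℝ)) :=
  ⟨0, fun _ _ => ⟨0, Nat.two_pow_pos k⟩, fun _ _ _ => true, by simp⟩

end Pool.Agent.P.MP_a54059_lc.MA
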